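import Mathlib
import Pool.Agent.TH881.RG.Den

/-!
# Job RG-E: summing the mixing lemma over all pairs of classes
-/

set_option autoImplicit false

namespace Pool.Agent.TH698.RGE

open Finset Filter Topology
open Pool.Agent.TH881
open Pool.Agent.TH881.RG
open Pool.Agent.H373R2.T7

lemma mem_cls {w : ℕ} {E : Finset ℕ} {t : ZMod (Wp w)} {n : ℕ} :
    n ∈ cls w E t ↔ n ∈ E ∧ (n : ZMod (Wp w)) = t := by
  unfold cls
  rw [mem_filter]

lemma cls_sub {w : ℕ} (E : Finset ℕ) (t : ZMod (Wp w)) : cls w E t ⊆ E := by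
  unfold cls
  exact filter_subset _ _

/-- a double sum as a sum over pairs of classes -/
lemma split (w : ℕ) (E B : Finset ℕ) (hB : ∀ b ∈ B, IsUnit (b : ZMod (Wp w))) (F : ℕ → ℕ → ℝ) :
    ∑ n ∈ E, ∑ b ∈ B, F n b =
      ∑ a ∈ UU w, ∑ t : ZMod (Wp w), ∑ n ∈ cls w E t, ∑ b ∈ cls w B a, F n b := by
  classical
  have h1 : ∀ a : ZMod (Wp w), ∑ t : ZMod (Wp w), ∑ n ∈ cls w E t, ∑ b ∈ cls w B a, F n b =
      ∑ n ∈ E, ∑ b ∈ cls w B a, F n b := by
    intro a
    rw [← Finset.sum_fiberwise E (fun n : ℕ => (n : ZMod (Wp w)))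
      (fun n => ∑ b ∈ cls w B a, F n b)]
    refine sum_congr rfl fun t _ => ?_
    refine sum_congr ?_ fun _ _ => rfl
    ext n
    rw [mem_cls, mem_filter]
  have h2 : ∑ a ∈ UU w, ∑ t : ZMod (Wp w), ∑ n ∈ cls w E t, ∑ b ∈ cls w B a, F n b =
      ∑ a ∈ UU w, ∑ n ∈ E, ∑ b ∈ cls w B a, F n b := sum_congr rfl fun a _ => h1 a
  have h3 : ∑ a ∈ UU w, ∑ n ∈ E, ∑ b ∈ cls w B a, F n b =
      ∑ n ∈ E, ∑ a ∈ UU w, ∑ b ∈ cls w B a, F n b := sum_comm
  rw [h2, h3]
  refine sum_congr rfl fun n _ => ?_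
  rw [← Finset.sum_fiberwise_of_maps_to (s := B) (t := UU w) (g := fun b : ℕ => (b : ZMod (Wp w)))
    (fun b hb => mem_UU.2 (hB b hb)) (fun b => F n b)]
  refine sum_congr rfl fun a _ => ?_
  refine sum_congr ?_ fun _ _ => rfl
  ext b
  rw [mem_cls, mem_filter]

/-- a representative of a class in a window -/
lemma exists_rep (w M : ℕ) (t : ZMod (Wp w)) :
    ∃ t' : ℕ, M < t' ∧ t' ≤ M + Wp w ∧ (t' : ZMod (Wp w)) = t := by
  refine ⟨M + 1 + (t - ((M + 1 : ℕ) : ZMod (Wp w))).val, by omega, ?_, ?_⟩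
  · have := ZMod.val_lt (t - ((M + 1 : ℕ) : ZMod (Wp w)))
    omega
  · rw [Nat.cast_add, ZMod.natCast_zmod_val]
    ring

lemma cls_sub_It {w M H : ℕ} {E : Finset ℕ} (hE : E ⊆ Ioc M (M + H)) {t : ZMod (Wp w)} {t' : ℕ}
    (ht : (t' : ZMod (Wp w)) = t) : cls w E t ⊆ It w M H t' := by
  intro n hn
  rw [mem_cls] at hn
  unfold It
  rw [mem_filter]
  refine ⟨hE hn.1, ?_⟩
  rw [← ZMod.natCast_eq_natCast_iff, hn.2, ht]

lemma card_cls_le {w M H : ℕ} {E : Finset ℕ} (hE : E ⊆ Ioc M (M + H)) (t : ZMod (Wp w)) :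
    ((cls w E t).card : ℝ) ≤ (H : ℝ) / Wp w + 1 := by
  obtain ⟨t', h1, h2, h3⟩ := exists_rep w M t
  refine le_trans ?_ (card_It_le w M H t' h1 h2)
  exact_mod_cast card_le_card (cls_sub_It hE h3)

/-- the algebra of one pair of classes -/
lemma alg {S e C v h p ε₁ Y : ℝ} (he0 : 0 ≤ e) (he : e ≤ h + 1) (hC0 : 0 ≤ C) (hC : C ≤ 2 * p)
    (hv : 0 < v) (hp : 0 < p) (hε : 0 < ε₁) (hh : 0 < h) (h1 : 1 ≤ ε₁ * h) (hY : Y = v * h * p)
    (hS : |S - e * (v * C)| ≤ ε₁ * (h * (v * C))) :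
    |S - Y * (C / p * (e / (h + 1)))| ≤ 4 * ε₁ * Y := by
  have hh1 : 0 < h + 1 := by linarith
  have e1 : e * (v * C) - Y * (C / p * (e / (h + 1))) = v * C * (e / (h + 1)) := by
    rw [hY]
    field_simp
    ring
  have e2 : e / (h + 1) ≤ 1 := by
    rw [div_le_one hh1]
    exact he
  have e3 : 0 ≤ e / (h + 1) := by positivity
  have e4 : v * C * (e / (h + 1)) ≤ 2 * ε₁ * Y := by
    calc v * C * (e / (h + 1)) ≤ v * C * 1 := mul_le_mul_of_nonneg_left e2 (by positivity)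
      _ ≤ v * (2 * p) * 1 :=
          mul_le_mul_of_nonneg_right (mul_le_mul_of_nonneg_left hC hv.le) zero_le_one
      _ ≤ v * (2 * p) * (ε₁ * h) := mul_le_mul_of_nonneg_left h1 (by positivity)
      _ = 2 * ε₁ * Y := by rw [hY]; ring
  have e5 : 0 ≤ v * C * (e / (h + 1)) := by positivity
  have e6 : ε₁ * (h * (v * C)) ≤ 2 * ε₁ * Y := by
    calc ε₁ * (h * (v * C)) ≤ ε₁ * (h * (v * (2 * p))) :=
          mul_le_mul_of_nonneg_left (mul_le_mul_of_nonneg_left
            (mul_le_mul_of_nonneg_left hC hv.le) hh.le) hε.le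
      _ = 2 * ε₁ * Y := by rw [hY]; ring
  rw [abs_le] at hS ⊢
  constructor <;> linarith [hS.1, hS.2]

/-- the powers of small primes carry little mass -/
lemma small_mass (w N : ℕ) :
    ∑ m ∈ (Icc 1 N).filter (fun m => ¬ m.Coprime (Wp w)), ArithmeticFunction.vonMangoldt m ≤
      (w * Nat.log 2 N : ℝ) * Real.log w := by
  classical
  have hlogw : 0 ≤ Real.log (w : ℝ) := Real.log_natCast_nonneg w
  -- the support
  set T := ((Icc 1 N).filter (fun m => ¬ m.Coprime (Wp w))).filter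
    (fun m => ArithmeticFunction.vonMangoldt m ≠ 0) with hT
  have h1 : ∑ m ∈ (Icc 1 N).filter (fun m => ¬ m.Coprime (Wp w)), ArithmeticFunction.vonMangoldt m =
      ∑ m ∈ T, ArithmeticFunction.vonMangoldt m := by
    rw [hT, sum_filter_ne_zero]
  have key : ∀ m ∈ T, ∃ p k : ℕ, p.Prime ∧ p ≤ w ∧ 1 ≤ k ∧ k ≤ Nat.log 2 N ∧ m = p ^ k := by
    intro m hm
    rw [hT, mem_filter, mem_filter, mem_Icc] at hm
    obtain ⟨⟨⟨hm1, hmN⟩, hcop⟩, hne⟩ := hm
    rw [ArithmeticFunction.vonMangoldt_ne_zero_iff, isPrimePow_nat_iff] at hne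
    obtain ⟨p, k, hp, hk, rfl⟩ := hne
    refine ⟨p, k, hp, ?_, hk, ?_, rfl⟩
    · by_contra hlt
      apply hcop
      apply Nat.Coprime.pow_left
      rw [Nat.Prime.coprime_iff_not_dvd hp, prime_dvd_Wp hp]
      exact hlt
    · have h2 : 2 ^ k ≤ N := (Nat.pow_le_pow_left hp.two_le k).trans hmN
      exact Nat.le_log_of_pow_le (by norm_num) h2
  have h2 : ∀ m ∈ T, ArithmeticFunction.vonMangoldt m ≤ Real.log w := by
    intro m hm
    obtain ⟨p, k, hp, hpw, hk, _, rfl⟩ := key m hm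
    rw [ArithmeticFunction.vonMangoldt_apply_pow (by omega), ArithmeticFunction.vonMangoldt_apply_prime hp]
    apply Real.log_le_log
    · exact_mod_cast hp.pos
    · exact_mod_cast hpw
  have h3 : T ⊆ ((Icc 1 w) ×ˢ (Icc 1 (Nat.log 2 N))).image (fun x : ℕ × ℕ => x.1 ^ x.2) := by
    intro m hm
    obtain ⟨p, k, hp, hpw, hk, hkN, rfl⟩ := key m hm
    rw [mem_image]
    exact ⟨(p, k), mem_product.2 ⟨mem_Icc.2 ⟨hp.one_lt.le, hpw⟩, mem_Icc.2 ⟨hk, hkN⟩⟩, rfl⟩
  have h4 : (T.card : ℝ) ≤ w * Nat.log 2 N := by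
    have := (card_le_card h3).trans card_image_le
    rw [card_product, Nat.card_Icc, Nat.card_Icc] at this
    have h5 : T.card ≤ w * Nat.log 2 N := by simpa using this
    exact_mod_cast h5
  rw [h1]
  calc ∑ m ∈ T, ArithmeticFunction.vonMangoldt m ≤ ∑ _m ∈ T, Real.log w := sum_le_sum h2
    _ = T.card * Real.log w := by rw [sum_const, nsmul_eq_mul]
    _ ≤ _ := mul_le_mul_of_nonneg_right h4 hlogw

/-- the bad part for one `n` -/
lemma bad_one (w N n : ℕ) (hn : n ≤ N) (B : Finset ℕ) :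
    ∑ b ∈ B, (if b < n ∧ ¬ (n - b).Coprime (Wp w) then ArithmeticFunction.vonMangoldt (n - b) else 0) ≤
      (w * Nat.log 2 N : ℝ) * Real.log w := by
  classical
  refine le_trans ?_ (small_mass w N)
  rw [← sum_filter]
  have hinj : Set.InjOn (fun b => n - b)
      ((B.filter (fun b => b < n ∧ ¬ (n - b).Coprime (Wp w)) : Finset ℕ) : Set ℕ) := by
    intro a ha b hb hab
    rw [Finset.mem_coe, mem_filter] at ha hb
    simp only at hab
    omega
  rw [← sum_image (f := fun k => ArithmeticFunction.vonMangoldt k) hinj]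
  apply sum_le_sum_of_subset_of_nonneg
  · intro k hk
    rw [mem_image] at hk
    obtain ⟨b, hb, rfl⟩ := hk
    rw [mem_filter] at hb
    rw [mem_filter, mem_Icc]
    exact ⟨⟨by omega, by omega⟩, hb.2.2⟩
  · intro _ _ _
    exact ArithmeticFunction.vonMangoldt_nonneg

/-- the conclusion of the mixing lemma for one window -/
def MixAt (w N M H : ℕ) (κ ε₁ : ℝ) : Prop :=
  ∀ t : ℕ, M < t → t ≤ M + Wp w → ∀ B : Finset ℕ, (∀ b ∈ B, b ≤ M) → (∀ b ∈ B, b.Prime) →
    (∀ b ∈ B, √(N : ℝ) < b) → (∀ b ∈ B, ∀ b' ∈ B, b ≡ b' [MOD Wp w]) →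
    (∀ b ∈ B, (t - b).Coprime (Wp w)) →
    κ * ((M : ℝ) / (Nat.totient (Wp w) * Real.log M)) ≤ B.card →
    ∀ E ⊆ It w M H t,
      |∑ n ∈ E, cv (fun k => ArithmeticFunction.vonMangoldt k) B n - E.card * ((Vz w)⁻¹ * B.card)| ≤
        ε₁ * (((H : ℝ) / Wp w) * ((Vz w)⁻¹ * B.card))

/-- one pair of classes, many primes -/
lemma pair_good {w N M H : ℕ} {κ ε₁ : ℝ} (hε : 0 < ε₁) (hmix : MixAt w N M H κ ε₁)
    (hH : 0 < (H : ℝ) / Wp w) (hH1 : 1 ≤ ε₁ * ((H : ℝ) / Wp w)) (hp : 0 < pp w M)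
    {E : Finset ℕ} (hE : E ⊆ Ioc M (M + H)) {B : Finset ℕ}
    (hB : ∀ b ∈ B, b.Prime ∧ √(N : ℝ) < b ∧ b ≤ M) {a t : ZMod (Wp w)}
    (hBa : ∀ b ∈ B, (b : ZMod (Wp w)) = a) (hta : IsUnit (t - a))
    (h1 : κ * pp w M ≤ B.card) (h2 : (B.card : ℝ) ≤ 2 * pp w M) :
    |∑ n ∈ cls w E t, cv (fun k => ArithmeticFunction.vonMangoldt k) B n -
      YY w M H * ((B.card : ℝ) / pp w M * eef w H E t)| ≤ 4 * ε₁ * YY w M H := by
  obtain ⟨t', ht1, ht2, ht3⟩ := exists_rep w M t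
  have hm := hmix t' ht1 ht2 B (fun b hb => (hB b hb).2.2) (fun b hb => (hB b hb).1)
    (fun b hb => (hB b hb).2.1)
    (fun b hb b' hb' => by
      rw [← ZMod.natCast_eq_natCast_iff, hBa b hb, hBa b' hb'])
    (fun b hb => by
      rw [← ZMod.isUnit_iff_coprime, Nat.cast_sub (by have := (hB b hb).2.2; omega), ht3, hBa b hb]
      exact hta) h1 (cls w E t) (cls_sub_It hE ht3)
  exact alg (Nat.cast_nonneg _) (card_cls_le hE t) (Nat.cast_nonneg _) h2
    (inv_pos.2 (Vz_pos w)) hp hε hH hH1 rfl hm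

lemma cv_mono {B B' : Finset ℕ} (h : B ⊆ B') (n : ℕ) :
    cv (fun k => ArithmeticFunction.vonMangoldt k) B n ≤
      cv (fun k => ArithmeticFunction.vonMangoldt k) B' n := by
  unfold cv
  apply sum_le_sum_of_subset_of_nonneg
  · exact filter_subset_filter _ h
  · intro _ _ _
    exact ArithmeticFunction.vonMangoldt_nonneg

lemma eef_nonneg (w H : ℕ) (E : Finset ℕ) (t : ZMod (Wp w)) : 0 ≤ eef w H E t := by
  unfold eef
  positivity

lemma eef_le_one {w M H : ℕ} {E : Finset ℕ} (hE : E ⊆ Ioc M (M + H)) (t : ZMod (Wp w)) :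
    eef w H E t ≤ 1 := by
  unfold eef
  rw [div_le_one (by positivity)]
  exact card_cls_le hE t

/-- one pair of classes -/
lemma pair_all {w N M H : ℕ} {κ ε₁ : ℝ} (hκ : 0 < κ) (hκ1 : κ ≤ 1 / 4) (hε : 0 < ε₁)
    (hmix : MixAt w N M H κ ε₁)
    (hH : 0 < (H : ℝ) / Wp w) (hH1 : 1 ≤ ε₁ * ((H : ℝ) / Wp w)) (hp : 0 < pp w M)
    (hp1 : 1 ≤ κ * pp w M)
    {E : Finset ℕ} (hE : E ⊆ Ioc M (M + H)) {B : Finset ℕ}
    (hB : ∀ b ∈ B, b.Prime ∧ √(N : ℝ) < b ∧ b ≤ M) {a t : ZMod (Wp w)} (hta : IsUnit (t - a))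
    (hPC : |bbf w M ((Icc 1 M).filter (fun p : ℕ => p.Prime ∧ √(N : ℝ) < p)) a - 1| ≤ 1 / 2) :
    |∑ n ∈ cls w E t, cv (fun k => ArithmeticFunction.vonMangoldt k) (cls w B a) n -
      YY w M H * (bbf w M B a * eef w H E t)| ≤ (2 * κ + 4 * ε₁) * YY w M H := by
  classical
  have hY : 0 < YY w M H := by
    unfold YY
    have := inv_pos.2 (Vz_pos w)
    positivity
  have he0 := eef_nonneg w H E t
  have he1 := eef_le_one hE t
  set P := cls w ((Icc 1 M).filter (fun p : ℕ => p.Prime ∧ √(N : ℝ) < p)) a with hP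
  have hPmem : ∀ b ∈ P, b.Prime ∧ √(N : ℝ) < b ∧ b ≤ M := by
    intro b hb
    rw [hP, mem_cls, mem_filter, mem_Icc] at hb
    exact ⟨hb.1.2.1, hb.1.2.2, hb.1.1.2⟩
  have hPa : ∀ b ∈ P, (b : ZMod (Wp w)) = a := fun b hb => (mem_cls.1 hb).2
  have hBP : cls w B a ⊆ P := by
    intro b hb
    rw [mem_cls] at hb
    rw [hP, mem_cls, mem_filter, mem_Icc]
    obtain ⟨h1, h2, h3⟩ := hB b hb.1
    exact ⟨⟨⟨h1.one_lt.le, h3⟩, h1, h2⟩, hb.2⟩
  have hPC' : |(P.card : ℝ) / pp w M - 1| ≤ 1 / 2 := hPC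
  rw [abs_le] at hPC'
  have hP1 : pp w M / 2 ≤ P.card := by
    have h1 : 1 / 2 ≤ (P.card : ℝ) / pp w M := by linarith [hPC'.1]
    rw [le_div_iff₀ hp] at h1
    linarith
  have hP2 : (P.card : ℝ) ≤ 2 * pp w M := by
    have h1 : (P.card : ℝ) / pp w M ≤ 2 := by linarith [hPC'.2]
    rwa [div_le_iff₀ hp] at h1
  have hBmem : ∀ b ∈ cls w B a, b.Prime ∧ √(N : ℝ) < b ∧ b ≤ M := fun b hb => hPmem b (hBP hb)
  have hBa : ∀ b ∈ cls w B a, (b : ZMod (Wp w)) = a := fun b hb => hPa b (hBP hb)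
  have hb2 : ((cls w B a).card : ℝ) ≤ 2 * pp w M :=
    le_trans (by exact_mod_cast card_le_card hBP) hP2
  rcases le_or_gt (κ * pp w M) ((cls w B a).card : ℝ) with hcase | hcase
  · refine (pair_good hε hmix hH hH1 hp hE hBmem hBa hta hcase hb2).trans ?_
    apply mul_le_mul_of_nonneg_right _ hY.le
    linarith
  · -- enlarge
    have hc1 : (cls w B a).card ≤ ⌈κ * pp w M⌉₊ := by
      have : ((cls w B a).card : ℝ) ≤ (⌈κ * pp w M⌉₊ : ℝ) := hcase.le.trans (Nat.le_ceil _)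
      exact_mod_cast this
    have hc2 : (⌈κ * pp w M⌉₊ : ℝ) ≤ 2 * (κ * pp w M) := by
      have := Nat.ceil_lt_add_one (show 0 ≤ κ * pp w M by positivity)
      linarith
    have hc3 : ⌈κ * pp w M⌉₊ ≤ P.card := by
      have h1 : (⌈κ * pp w M⌉₊ : ℝ) ≤ P.card := by
        refine hc2.trans (le_trans ?_ hP1)
        nlinarith
      exact_mod_cast h1
    obtain ⟨B', hB1, hB2, hB3⟩ := Finset.exists_subsuperset_card_eq hBP hc1 hc3
    have hB'2 : (B'.card : ℝ) ≤ 2 * (κ * pp w M) := by rw [hB3]; exact hc2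
    have hg := pair_good hε hmix hH hH1 hp hE (B := B') (a := a) (t := t)
      (fun b hb => hPmem b (hB2 hb)) (fun b hb => hPa b (hB2 hb)) hta
      (by rw [hB3]; exact Nat.le_ceil _) (hB'2.trans (by nlinarith))
    rw [abs_le] at hg
    set S' := ∑ n ∈ cls w E t, cv (fun k => ArithmeticFunction.vonMangoldt k) B' n with hS'
    set S := ∑ n ∈ cls w E t, cv (fun k => ArithmeticFunction.vonMangoldt k) (cls w B a) n with hS
    have hS0 : 0 ≤ S := sum_nonneg fun n _ => cv_nonneg _ (fun _ => ArithmeticFunction.vonMangoldt_nonneg) _ _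
    have hSS : S ≤ S' := sum_le_sum fun n _ => cv_mono hB1 n
    have hq : (B'.card : ℝ) / pp w M * eef w H E t ≤ 2 * κ := by
      have h1 : (B'.card : ℝ) / pp w M ≤ 2 * κ := by
        rw [div_le_iff₀ hp]
        linarith
      calc (B'.card : ℝ) / pp w M * eef w H E t ≤ 2 * κ * 1 :=
            mul_le_mul h1 he1 he0 (by positivity)
        _ = 2 * κ := mul_one _
    have hm1 : YY w M H * ((B'.card : ℝ) / pp w M * eef w H E t) ≤ 2 * κ * YY w M H := by
      rw [mul_comm]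
      exact mul_le_mul_of_nonneg_right hq hY.le
    have hbb : bbf w M B a ≤ κ := by
      unfold bbf
      rw [div_le_iff₀ hp]
      exact hcase.le
    have hbb0 : 0 ≤ bbf w M B a := by
      unfold bbf
      positivity
    have hm2 : YY w M H * (bbf w M B a * eef w H E t) ≤ κ * YY w M H := by
      rw [mul_comm]
      apply mul_le_mul_of_nonneg_right _ hY.le
      calc bbf w M B a * eef w H E t ≤ κ * 1 := mul_le_mul hbb he1 he0 hκ.le
        _ = κ := mul_one _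
    have hm3 : 0 ≤ YY w M H * (bbf w M B a * eef w H E t) := by positivity
    have hκY : 0 ≤ κ * YY w M H := by positivity
    have hεY : 0 ≤ ε₁ * YY w M H := by positivity
    rw [abs_le]
    constructor
    · linarith
    · linarith [hg.2]

/-- the number of units `t` with `t - a` a unit -/
lemma sum_units (w : ℕ) (a : ZMod (Wp w)) (c : ℝ) :
    ∑ t : ZMod (Wp w), (open Classical in if IsUnit (t - a) then c else 0) =
      Nat.totient (Wp w) * c := by
  classical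
  rw [← sum_filter, sum_const, nsmul_eq_mul]
  have key : (univ.filter fun t : ZMod (Wp w) => IsUnit (t - a)).card = (UU w).card := by
    refine Finset.card_bij (fun t _ => t - a) ?_ ?_ ?_
    · intro t ht
      rw [mem_filter] at ht
      exact mem_UU.2 ht.2
    · intro t _ t' _ h
      exact sub_left_inj.1 h
    · intro u hu
      exact ⟨u + a, by
        rw [mem_filter]
        refine ⟨mem_univ _, ?_⟩
        rw [add_sub_cancel_right]
        exact mem_UU.1 hu, add_sub_cancel_right u a⟩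
  rw [key, card_UU]

lemma natlog_le {N : ℕ} (hN : 1 ≤ N) : (Nat.log 2 N : ℝ) ≤ 2 * Real.log N := by
  have h1 : (2 : ℝ) ^ Nat.log 2 N ≤ N := by exact_mod_cast Nat.pow_log_le_self 2 (by omega)
  have h2 := Real.log_le_log (by positivity) h1
  rw [Real.log_pow] at h2
  have h3 : 1 / 2 ≤ Real.log 2 := by
    have := Real.log_two_gt_d9
    linarith
  have h4 : (0 : ℝ) ≤ Nat.log 2 N := Nat.cast_nonneg _
  nlinarith

/-- large `N` -/
lemma large (w : ℕ) (W φ κ ε₁ ρ δ : ℝ) (hW : 0 < W) (hφ : 0 < φ) (hκ : 0 < κ) (hε : 0 < ε₁)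
    (hρ : 0 < ρ) (hδ : 0 < δ) : ∃ N0 : ℕ, ∀ N : ℕ, N0 ≤ N → ∀ M H : ℕ, M + H ≤ N →
    ρ * N ≤ H → ρ * N ≤ M →
    0 < (H : ℝ) / W ∧ 1 ≤ ε₁ * ((H : ℝ) / W) ∧ 0 < (M : ℝ) / (φ * Real.log M) ∧
      1 ≤ κ * ((M : ℝ) / (φ * Real.log M)) ∧
      (w * Nat.log 2 N : ℝ) * Real.log w ≤ δ * (M / Real.log M) ∧ (w : ℝ) ≤ √(N : ℝ) ∧
      0 < (M : ℝ) / Real.log M := by
  have hpow : ∀ n : ℕ, ∀ c : ℝ, 0 < c → ∀ᶠ N : ℕ in atTop, Real.log (N : ℝ) ^ n ≤ c * N := by
    intro n c hc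
    have h1 := (Real.isLittleO_pow_log_id_atTop (n := n)).bound hc
    have h2 := tendsto_natCast_atTop_atTop (R := ℝ) |>.eventually h1
    filter_upwards [h2, eventually_ge_atTop 1] with N hN hN1
    have hN1' : (1 : ℝ) ≤ N := by exact_mod_cast hN1
    rw [Real.norm_of_nonneg (pow_nonneg (Real.log_nonneg hN1') n)] at hN
    simpa [abs_of_nonneg (show (0 : ℝ) ≤ N by linarith)] using hN
  have hlin : ∀ C : ℝ, ∀ᶠ N : ℕ in atTop, C ≤ (N : ℝ) := fun C =>
    (tendsto_natCast_atTop_atTop (R := ℝ)).eventually_ge_atTop C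
  set A : ℝ := w * 2 * Real.log w with hA
  have hA0 : 0 ≤ A := by
    have := Real.log_natCast_nonneg w
    positivity
  have hev : ∀ᶠ N : ℕ in atTop, W / (ε₁ * ρ) ≤ N ∧ Real.log (N : ℝ) ^ 1 ≤ (κ * ρ / φ) * N ∧
      Real.log (N : ℝ) ^ 2 ≤ (δ * ρ / (A + 1)) * N ∧ (w : ℝ) ^ 2 ≤ N ∧ 2 / ρ ≤ N ∧ (2 : ℝ) ≤ N := by
    filter_upwards [hlin (W / (ε₁ * ρ)), hpow 1 (κ * ρ / φ) (by positivity),
      hpow 2 (δ * ρ / (A + 1)) (by positivity), hlin ((w : ℝ) ^ 2), hlin (2 / ρ), hlin 2]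
      with N a1 a2 a3 a4 a5 a6
    exact ⟨a1, a2, a3, a4, a5, a6⟩
  obtain ⟨N0, hN0⟩ := eventually_atTop.1 hev
  refine ⟨N0, fun N hN M H hMH hH hM => ?_⟩
  obtain ⟨a1, a2, a3, a4, a5, a6⟩ := hN0 N hN
  have hNpos : (0 : ℝ) < N := by linarith
  have hMN : (M : ℝ) ≤ N := by
    have : M ≤ N := by omega
    exact_mod_cast this
  rw [div_le_iff₀ hρ] at a5
  have hM2 : (2 : ℝ) ≤ M := by linarith
  have hH0 : (0 : ℝ) < H := by nlinarith
  have hM0 : (0 : ℝ) < M := by linarith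
  have hlM : 0 < Real.log M := Real.log_pos (by linarith)
  have hlMN : Real.log M ≤ Real.log N := Real.log_le_log hM0 hMN
  have hlN : 0 < Real.log N := by linarith
  rw [pow_one] at a2
  have hNl : (ρ * N) / Real.log N ≤ M / Real.log M := div_le_div₀ hM0.le hM hlM hlMN
  refine ⟨by positivity, ?_, by positivity, ?_, ?_, ?_, by positivity⟩
  · rw [div_le_iff₀ (by positivity)] at a1
    rw [← mul_div_assoc, one_le_div hW]
    nlinarith
  · have h1 : κ * ((M : ℝ) / (φ * Real.log M)) = κ / φ * (M / Real.log M) := by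
      field_simp
    rw [h1]
    have h2 : 1 ≤ κ / φ * ((ρ * N) / Real.log N) := by
      rw [← mul_div_assoc, one_le_div hlN]
      calc Real.log N ≤ κ * ρ / φ * N := a2
        _ = κ / φ * (ρ * N) := by ring
    exact h2.trans (mul_le_mul_of_nonneg_left hNl (by positivity))
  · have hnl := natlog_le (N := N) (by
      have : (1 : ℝ) ≤ N := by linarith
      exact_mod_cast this)
    have hw0 := Real.log_natCast_nonneg w
    calc (w * Nat.log 2 N : ℝ) * Real.log w ≤ (w * (2 * Real.log N)) * Real.log w :=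
          mul_le_mul_of_nonneg_right (mul_le_mul_of_nonneg_left hnl (Nat.cast_nonneg _)) hw0
      _ = A * Real.log N := by rw [hA]; ring
      _ ≤ δ * ((ρ * N) / Real.log N) := by
          rw [← mul_div_assoc, le_div_iff₀ hlN]
          have h3 : (A + 1) * Real.log N ^ 2 ≤ δ * ρ * N := by
            calc (A + 1) * Real.log N ^ 2 ≤ (A + 1) * (δ * ρ / (A + 1) * N) :=
                  mul_le_mul_of_nonneg_left a3 (by positivity)
              _ = δ * ρ * N := by field_simp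
          nlinarith [sq_nonneg (Real.log N)]
      _ ≤ δ * (M / Real.log M) := mul_le_mul_of_nonneg_left hNl hδ.le
  · exact Real.le_sqrt_of_sq_le a4

theorem bilinear (hPC : StPC) (ε ρ : ℝ) (hε : 0 < ε) (hρ : 0 < ρ) : ∃ w0 : ℕ, ∀ w : ℕ, w0 ≤ w →
    ∃ N0 : ℕ, ∀ N : ℕ, N0 ≤ N → ∀ M H : ℕ, M + H ≤ N → ρ * N ≤ H → ρ * N ≤ M →
    ∀ E ⊆ Ioc M (M + H), ∀ B : Finset ℕ, (∀ b ∈ B, b.Prime ∧ √(N : ℝ) < b ∧ b ≤ M) →
    |∑ n ∈ E, cv (fun k => ArithmeticFunction.vonMangoldt k) B n -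
        YY w M H * ∑ a ∈ UU w, bbf w M B a * rr w (eef w H E) a| ≤
      ε * (YY w M H * (Nat.totient (Wp w) : ℝ) ^ 2) := by
  classical
  obtain ⟨κ, hκd⟩ : ∃ κ : ℝ, κ = min (1 / 4) (ε / 16) := ⟨_, rfl⟩
  have hκ : 0 < κ := by rw [hκd]; positivity
  have hκ1 : κ ≤ 1 / 4 := by rw [hκd]; exact min_le_left _ _
  have hκ2 : κ ≤ ε / 16 := by rw [hκd]; exact min_le_right _ _
  obtain ⟨w0, hw0⟩ := mix stPM κ κ ρ hκ (by linarith) hκ (by linarith) hρ
  refine ⟨w0, fun w hw => ?_⟩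
  obtain ⟨N1, hN1⟩ := hw0 w hw
  obtain ⟨N2, hN2⟩ := hPC w (1 / 2) ρ (by norm_num) hρ
  have hWr : (0 : ℝ) < Wp w := by exact_mod_cast Wp_pos w
  have hφ := totient_Wp_pos w
  obtain ⟨N3, hN3⟩ := large w (Wp w) (Nat.totient (Wp w)) κ κ ρ (ε / 2) hWr hφ hκ hκ hρ (by positivity)
  refine ⟨max N1 (max N2 N3), fun N hN M H hMH hH hM E hE B hB => ?_⟩
  simp only [max_le_iff] at hN
  obtain ⟨l1, l2, l3, l4, l5, l6, l7⟩ := hN3 N hN.2.2 M H hMH hH hM
  have hmix : MixAt w N M H κ κ := fun t h1 h2 B' a1 a2 a3 a4 a5 a6 E' a7 =>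
    hN1 N hN.1 M H t h1 h2 hMH hH hM B' a1 a2 a3 a4 a5 a6 E' a7
  have hPC' := hN2 N hN.2.1 M (by omega) hM
  have hp : 0 < pp w M := l3
  have hY : 0 < YY w M H := by
    unfold YY
    have := inv_pos.2 (Vz_pos w)
    positivity
  -- primes of `B` are units
  have hBu : ∀ b ∈ B, IsUnit (b : ZMod (Wp w)) := by
    intro b hb
    obtain ⟨h1, h2, _⟩ := hB b hb
    rw [ZMod.isUnit_iff_coprime, Nat.Prime.coprime_iff_not_dvd h1, prime_dvd_Wp h1]
    intro h3
    have h4 : (b : ℝ) ≤ w := by exact_mod_cast h3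
    linarith
  have hEN : ∀ n ∈ E, M < n ∧ n ≤ N := by
    intro n hn
    have := mem_Ioc.1 (hE hn)
    omega
  have hlt : ∀ n ∈ E, ∀ b ∈ B, b < n := fun n hn b hb =>
    lt_of_le_of_lt (hB b hb).2.2 (hEN n hn).1
  -- the sum over the pairs of classes
  set T : ZMod (Wp w) → ZMod (Wp w) → ℝ := fun a t =>
    ∑ n ∈ cls w E t, cv (fun k => ArithmeticFunction.vonMangoldt k) (cls w B a) n with hT
  have hcv : ∀ B' : Finset ℕ, ∀ n : ℕ, cv (fun k => ArithmeticFunction.vonMangoldt k) B' n =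
      ∑ b ∈ B', if b < n then ArithmeticFunction.vonMangoldt (n - b) else 0 := by
    intro B' n
    unfold cv
    rw [sum_filter]
  have hS : ∑ n ∈ E, cv (fun k => ArithmeticFunction.vonMangoldt k) B n =
      ∑ a ∈ UU w, ∑ t : ZMod (Wp w), T a t := by
    rw [sum_congr rfl fun n _ => hcv B n, split w E B hBu]
    refine sum_congr rfl fun a _ => sum_congr rfl fun t _ => ?_
    rw [hT]
    exact sum_congr rfl fun n _ => (hcv _ n).symm
  have hmain : YY w M H * ∑ a ∈ UU w, bbf w M B a * rr w (eef w H E) a =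
      ∑ a ∈ UU w, ∑ t : ZMod (Wp w), (if IsUnit (t - a) then
        YY w M H * (bbf w M B a * eef w H E t) else 0) := by
    rw [mul_sum]
    refine sum_congr rfl fun a _ => ?_
    unfold rr
    rw [mul_sum, mul_sum]
    refine sum_congr rfl fun t _ => ?_
    by_cases h : IsUnit (t - a)
    · rw [if_pos h, if_pos h]
    · rw [if_neg h, if_neg h, mul_zero, mul_zero]
  have hT0 : ∀ a t, 0 ≤ T a t := fun a t =>
    sum_nonneg fun n _ => cv_nonneg _ (fun _ => ArithmeticFunction.vonMangoldt_nonneg) _ _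
  -- the pairs with `t - a` not a unit
  have hbad : ∑ a ∈ UU w, ∑ t : ZMod (Wp w), (if IsUnit (t - a) then 0 else T a t) ≤
      (H : ℝ) * ((w * Nat.log 2 N : ℝ) * Real.log w) := by
    have h1 : ∑ a ∈ UU w, ∑ t : ZMod (Wp w), (if IsUnit (t - a) then 0 else T a t) =
        ∑ n ∈ E, ∑ b ∈ B, (if b < n ∧ ¬ (n - b).Coprime (Wp w) then
          ArithmeticFunction.vonMangoldt (n - b) else 0) := by
      rw [split w E B hBu]
      refine sum_congr rfl fun a _ => sum_congr rfl fun t _ => ?_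
      have hiff : ∀ n ∈ cls w E t, ∀ b ∈ cls w B a, ((n - b).Coprime (Wp w) ↔ IsUnit (t - a)) := by
        intro n hn b hb
        rw [mem_cls] at hn hb
        have := hlt n hn.1 b hb.1
        rw [← ZMod.isUnit_iff_coprime, Nat.cast_sub this.le, hn.2, hb.2]
      by_cases h : IsUnit (t - a)
      · rw [if_pos h]
        symm
        refine sum_eq_zero fun n hn => sum_eq_zero fun b hb => ?_
        rw [if_neg]
        rintro ⟨_, h3⟩
        exact h3 ((hiff n hn b hb).2 h)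
      · rw [if_neg h, hT]
        refine sum_congr rfl fun n hn => ?_
        rw [hcv]
        refine sum_congr rfl fun b hb => ?_
        have h2 : ¬ (n - b).Coprime (Wp w) := fun h3 => h ((hiff n hn b hb).1 h3)
        by_cases h3 : b < n
        · rw [if_pos h3, if_pos ⟨h3, h2⟩]
        · rw [if_neg h3, if_neg (fun h4 => h3 h4.1)]
    rw [h1]
    calc _ ≤ ∑ _n ∈ E, (w * Nat.log 2 N : ℝ) * Real.log w :=
          sum_le_sum fun n hn => bad_one w N n (hEN n hn).2 B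
      _ = E.card * ((w * Nat.log 2 N : ℝ) * Real.log w) := by rw [sum_const, nsmul_eq_mul]
      _ ≤ _ := by
          have hcard : E.card ≤ H := by
            have := card_le_card hE
            rw [Nat.card_Ioc] at this
            omega
          have h5 := Real.log_natCast_nonneg w
          apply mul_le_mul_of_nonneg_right _ (by positivity)
          exact_mod_cast hcard
  -- `YY φ² = H M / log M`
  have hYφ : YY w M H * (Nat.totient (Wp w) : ℝ) ^ 2 = H * ((M : ℝ) / Real.log M) := by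
    unfold YY pp
    have hV := Vz_pos w
    have hlog : Real.log (M : ℝ) ≠ 0 := by
      intro h0
      rw [h0, div_zero] at l7
      exact lt_irrefl _ l7
    rw [totient_Wp w]
    field_simp
  rw [hS, hmain, ← sum_sub_distrib]
  calc |∑ a ∈ UU w, (∑ t : ZMod (Wp w), T a t - ∑ t : ZMod (Wp w), (if IsUnit (t - a) then
        YY w M H * (bbf w M B a * eef w H E t) else 0))|
      ≤ ∑ a ∈ UU w, ∑ t : ZMod (Wp w), ((if IsUnit (t - a) then (ε / 2) * YY w M H else 0) +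
          (if IsUnit (t - a) then 0 else T a t)) := by
        refine (abs_sum_le_sum_abs _ _).trans (sum_le_sum fun a ha => ?_)
        rw [← sum_sub_distrib]
        refine (abs_sum_le_sum_abs _ _).trans (sum_le_sum fun t _ => ?_)
        by_cases h : IsUnit (t - a)
        · rw [if_pos h, if_pos h, if_pos h, add_zero]
          refine (pair_all hκ hκ1 hκ hmix l1 l2 hp l4 hE hB h (hPC' a (mem_UU.1 ha))).trans ?_
          apply mul_le_mul_of_nonneg_right _ hY.le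
          linarith
        · rw [if_neg h, if_neg h, if_neg h, zero_add, sub_zero, abs_of_nonneg (hT0 a t)]
    _ = ∑ a ∈ UU w, ∑ t : ZMod (Wp w), (if IsUnit (t - a) then (ε / 2) * YY w M H else 0) +
          ∑ a ∈ UU w, ∑ t : ZMod (Wp w), (if IsUnit (t - a) then 0 else T a t) := by
        rw [← sum_add_distrib]
        exact sum_congr rfl fun a _ => sum_add_distrib
    _ ≤ (ε / 2) * (YY w M H * (Nat.totient (Wp w) : ℝ) ^ 2) +
          (ε / 2) * (YY w M H * (Nat.totient (Wp w) : ℝ) ^ 2) := by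
        refine add_le_add (le_of_eq ?_) (hbad.trans ?_)
        · rw [sum_congr rfl fun a _ => sum_units w a ((ε / 2) * YY w M H), sum_const, nsmul_eq_mul,
            card_UU]
          ring
        · rw [hYφ]
          calc (H : ℝ) * ((w * Nat.log 2 N : ℝ) * Real.log w) ≤ H * (ε / 2 * (M / Real.log M)) :=
                mul_le_mul_of_nonneg_left l5 (Nat.cast_nonneg _)
            _ = _ := by ring
    _ = ε * (YY w M H * (Nat.totient (Wp w) : ℝ) ^ 2) := by ring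

end Pool.Agent.TH698.RGE
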