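import Mathlib
import Pool.Agent.TH881.RK.Defs
import Pool.Agent.TH857.J3005

set_option autoImplicit false

namespace Pool.Agent.TH698.J3815

open Finset Filter Topology
open Pool.Agent.TH881
open Pool.Agent.TH881.RG
open Pool.Agent.TH881.RQ
open Pool.Agent.TH881.RK
open Pool.Agent.H373R2.T7
open Pool.Agent.TH857.J3005 (one_mem_AA Vz_lim)

theorem card_sumk (m w : ℕ) :
    ((sumk m w {(1 : ZMod (Wp w))}).card : ℝ) = (Nat.totient (Wp w) : ℝ) ^ m := by
  classical
  have h1 : sumk m w {(1 : ZMod (Wp w))} =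
      Fintype.piFinset (fun _ : Fin m => (UU w).image (fun u => u - 1)) := by
    ext t
    unfold sumk
    rw [mem_filter, Fintype.mem_piFinset]
    simp only [mem_univ, true_and, mem_singleton, exists_eq_left, mem_image]
    constructor
    · intro h j
      exact ⟨t j + 1, mem_UU.2 (h j), by ring⟩
    · intro h j
      obtain ⟨u, hu, he⟩ := h j
      rw [mem_UU] at hu
      rw [← he]
      rwa [sub_add_cancel]
  rw [h1, Fintype.card_piFinset, prod_const, card_univ, Fintype.card_fin,
    card_image_of_injective _ (sub_left_injective), ← card_UU]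
  push_cast
  rfl

theorem local_zero_up (pr : Bool) (m : ℕ) (hm : 1 ≤ m) : StZeroUpK pr m := by
  classical
  intro δ hδ
  set c := Real.exp (-Real.eulerMascheroniConstant) with hc
  have hcm : Real.exp (-(m * Real.eulerMascheroniConstant)) = c ^ m := by
    rw [hc, ← Real.exp_nat_mul]
    congr 1
    ring
  have hH : Tendsto (fun v : ℕ => (Real.log 4 + Real.log v) * Vz v) atTop (𝓝 c) := by
    have h1 : Tendsto (fun v : ℕ => (Real.log (v : ℝ))⁻¹) atTop (𝓝 0) :=
      (Real.tendsto_log_atTop.comp tendsto_natCast_atTop_atTop).inv_tendsto_atTop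
    have h2 := ((Vz_lim.mul h1).const_mul (Real.log 4)).add Vz_lim
    rw [mul_zero, mul_zero, zero_add] at h2
    refine h2.congr' ?_
    filter_upwards [eventually_ge_atTop 2] with v hv
    have h3 : 0 < Real.log (v : ℝ) := Real.log_pos (by exact_mod_cast hv)
    field_simp
  have hHm := hH.pow m
  have hlog4 : 0 < Real.log 4 := Real.log_pos (by norm_num)
  have hlog4' : Real.log 4 ≤ 2 := by
    have h5 : Real.log 4 = 2 * Real.log 2 := by
      rw [show (4 : ℝ) = 2 ^ 2 by norm_num, Real.log_pow]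
      norm_num
    have := Real.log_two_lt_d9
    linarith
  have hfl : Tendsto (fun T : ℝ => ⌊T / Real.log 4⌋₊) atTop atTop :=
    tendsto_nat_floor_atTop.comp (tendsto_id.atTop_div_const hlog4)
  have hev := ((hfl.eventually (hHm.eventually
    (gt_mem_nhds (show c ^ m < c ^ m + δ by linarith)))).and
    ((hfl.eventually_ge_atTop 1).and (eventually_ge_atTop (1 : ℝ))))
  obtain ⟨T0, hT0⟩ := Filter.eventually_atTop.1 hev
  refine ⟨Real.exp (-T0), Real.exp_pos _, fun β hβ hββ => ?_⟩
  set T := Real.log (1 / β) with hT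
  have hT1 : T0 ≤ T := by
    rw [hT, one_div, Real.log_inv]
    have := Real.log_le_log hβ hββ
    rw [Real.log_exp] at this
    linarith
  obtain ⟨h1, h2, h3⟩ := hT0 T hT1
  set w := ⌊T / Real.log 4⌋₊ with hw
  have hexpT : Real.exp T = 1 / β := by rw [hT, Real.exp_log (by positivity)]
  have hwT : (w : ℝ) * Real.log 4 ≤ T := by
    rw [← le_div_iff₀ hlog4]
    exact Nat.floor_le (by positivity)
  have hwT2 : T < ((w : ℝ) + 1) * Real.log 4 := by
    rw [← div_lt_iff₀ hlog4]
    exact Nat.lt_floor_add_one _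
  have hw1 : (1 : ℝ) ≤ w := by exact_mod_cast h2
  have hT4 : T ≤ 4 * w := by nlinarith
  have hlogT : Real.log T ≤ Real.log 4 + Real.log w := by
    rw [← Real.log_mul (by norm_num) (by positivity)]
    exact Real.log_le_log (by linarith) hT4
  have hlogT0 : 0 ≤ Real.log T := Real.log_nonneg h3
  have hWr : (0 : ℝ) < Wp w := by exact_mod_cast Wp_pos w
  have hV : 0 < Vz w := Vz_pos w
  have hWβ : (Wp w : ℝ) ≤ 1 / β := by
    have h4 : (Wp w : ℝ) ≤ 4 ^ w := by exact_mod_cast Wp_le w
    refine h4.trans ?_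
    rw [← hexpT]
    calc (4 : ℝ) ^ w = Real.exp (w * Real.log 4) := by
          rw [Real.exp_nat_mul, Real.exp_log (by norm_num)]
      _ ≤ Real.exp T := Real.exp_le_exp.2 hwT
  refine ⟨w, {1}, ?_, ?_, ?_⟩
  · rw [singleton_subset_iff]
    exact one_mem_AA pr w
  · have h5 : ((AA pr w).card : ℝ) ≤ Wp w := by
      have h6 := card_le_univ (AA pr w)
      rw [ZMod.card] at h6
      exact_mod_cast h6
    rw [card_singleton, Nat.cast_one]
    calc β * (AA pr w).card ≤ β * (1 / β) :=
          mul_le_mul_of_nonneg_left (h5.trans hWβ) hβ.le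
      _ = 1 := by field_simp
  · have h6 : ((sumk m w {(1 : ZMod (Wp w))}).card : ℝ) / (Wp w : ℝ) ^ m = Vz w ^ m := by
      rw [card_sumk, totient_Wp, mul_pow]
      field_simp
    rw [h6, ← mul_pow, hcm]
    calc (Real.log T * Vz w) ^ m ≤ ((Real.log 4 + Real.log w) * Vz w) ^ m :=
          pow_le_pow_left₀ (by positivity) (mul_le_mul_of_nonneg_right hlogT hV.le) m
      _ ≤ c ^ m + δ := h1.le

end Pool.Agent.TH698.J3815
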