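import Pool.Agent.TH176.Nag.Defs

/-! # Composition of a polynomial of high multiplicity with Laurent polynomials (NAG-I23) -/

namespace Pool.Agent.TH698

open Finset Pool.Agent.TH176.Nag

theorem prod_desc {K : Type*} [Field K] [CharZero K] (p a : ℕ) :
    ((p.choose a : ℕ) : K) = ((a.factorial : ℕ) : K)⁻¹ * ∏ t ∈ range a, ((p : K) - (t : K)) := by
  have h1 : ∏ t ∈ range a, ((p : K) - (t : K)) = ((p.descFactorial a : ℕ) : K) := by
    rw [← descPochhammer_eval_eq_prod_range, descPochhammer_eval_eq_descFactorial]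
  rw [h1, Nat.descFactorial_eq_factorial_mul_choose]
  have h2 : ((a.factorial : ℕ) : K) ≠ 0 := by exact_mod_cast a.factorial_ne_zero
  push_cast
  field_simp

/-- the binomial expansion with a uniform range -/
theorem bin_exp {K Q : Type*} [Field K] [CommRing Q] [Algebra K Q] {x : K} (hx : x ≠ 0) (e : Q)
    {p D : ℕ} (hD : p ≤ D) : (algebraMap K Q x + e) ^ p =
      ∑ a ∈ range (D + 1), e ^ a * algebraMap K Q (x ^ p * x⁻¹ ^ a * (p.choose a : ℕ)) := by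
  rw [add_comm, add_pow]
  have hsub : range (p + 1) ⊆ range (D + 1) := by
    intro i hi
    rw [mem_range] at hi ⊢
    omega
  rw [← sum_subset hsub]
  · apply sum_congr rfl
    intro a ha
    rw [mem_range] at ha
    have h1 : x ^ p * x⁻¹ ^ a = x ^ (p - a) := by
      have h2 : p = (p - a) + a := by omega
      conv_lhs => rw [h2, pow_add, mul_assoc, ← mul_pow, mul_inv_cancel₀ hx, one_pow, mul_one]
    rw [h1, map_mul, map_pow, map_natCast, mul_assoc]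
  · intro a _ ha
    rw [mem_range, not_lt] at ha
    rw [Nat.choose_eq_zero_of_lt (by omega)]
    simp

theorem LM_eval_nilpotent {K Q : Type*} [Field K] [CharZero K] [CommRing Q] [Algebra K Q] {J : Ideal Q}
    {w : ℕ} (hJ : J ^ w = ⊥) {x y : K} (hx : x ≠ 0) (hy : y ≠ 0) {e1 e2 : Q} (he1 : e1 ∈ J)
    (he2 : e2 ∈ J) {f : (ℤ × ℤ) →₀ K} (hpos : ∀ m ∈ f.support, 0 ≤ m.1 ∧ 0 ≤ m.2)
    (hf : LM f x y w) :
    (f.sum fun m c => c • ((algebraMap K Q x + e1) ^ m.1.toNat * (algebraMap K Q y + e2) ^ m.2.toNat)) = 0 := by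
  obtain ⟨D, hD⟩ : ∃ D : ℕ, ∀ m ∈ f.support, m.1.toNat ≤ D ∧ m.2.toNat ≤ D := by
    refine ⟨∑ m ∈ f.support, (m.1.toNat + m.2.toNat), fun m hm => ?_⟩
    have := single_le_sum (f := fun m : ℤ × ℤ => m.1.toNat + m.2.toNat) (fun _ _ => Nat.zero_le _) hm
    omega
  have key : ∀ a b : ℕ, e1 ^ a * e2 ^ b * algebraMap K Q (∑ m ∈ f.support, f m *
      ((x ^ m.1.toNat * x⁻¹ ^ a * (m.1.toNat.choose a : ℕ)) *
        (y ^ m.2.toNat * y⁻¹ ^ b * (m.2.toNat.choose b : ℕ)))) = 0 := by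
    intro a b
    by_cases hab : a + b < w
    · have h1 := hf _ (PF_desc2 hab)
      have h2 : ∑ m ∈ f.support, f m *
          ((x ^ m.1.toNat * x⁻¹ ^ a * (m.1.toNat.choose a : ℕ)) *
          (y ^ m.2.toNat * y⁻¹ ^ b * (m.2.toNat.choose b : ℕ))) =
          x⁻¹ ^ a * y⁻¹ ^ b * ((a.factorial : ℕ) : K)⁻¹ * ((b.factorial : ℕ) : K)⁻¹ *
          pr f x y (fun u : K × K => (∏ t ∈ range a, (u.1 - (t : K))) *
            ∏ t ∈ range b, (u.2 - (t : K))) := by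
        rw [pr, Finsupp.sum, mul_sum]
        apply sum_congr rfl
        intro m hm
        obtain ⟨hm1, hm2⟩ := hpos m hm
        obtain ⟨p, hp⟩ := Int.eq_ofNat_of_zero_le hm1
        obtain ⟨q, hq⟩ := Int.eq_ofNat_of_zero_le hm2
        rw [hp, hq, prod_desc, prod_desc]
        simp only [Int.toNat_natCast, Int.cast_natCast, zpow_natCast]
        ring
      rw [h2, h1, mul_zero, map_zero, mul_zero]
    · have h1 : e1 ^ a * e2 ^ b ∈ J ^ w := by
        have h2 : e1 ^ a * e2 ^ b ∈ J ^ (a + b) := by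
          rw [pow_add]
          exact Ideal.mul_mem_mul (Ideal.pow_mem_pow he1 a) (Ideal.pow_mem_pow he2 b)
        exact Ideal.pow_le_pow_right (not_lt.1 hab) h2
      rw [hJ, Ideal.mem_bot] at h1
      rw [h1, zero_mul]
  have h3 : (f.sum fun m c => c • ((algebraMap K Q x + e1) ^ m.1.toNat *
      (algebraMap K Q y + e2) ^ m.2.toNat)) =
      ∑ a ∈ range (D + 1), ∑ b ∈ range (D + 1), e1 ^ a * e2 ^ b *
        algebraMap K Q (∑ m ∈ f.support, f m *
        ((x ^ m.1.toNat * x⁻¹ ^ a * (m.1.toNat.choose a : ℕ)) *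
          (y ^ m.2.toNat * y⁻¹ ^ b * (m.2.toNat.choose b : ℕ)))) := by
    have e1' : ∀ m ∈ f.support, f m • ((algebraMap K Q x + e1) ^ m.1.toNat *
        (algebraMap K Q y + e2) ^ m.2.toNat) =
        ∑ a ∈ range (D + 1), ∑ b ∈ range (D + 1), e1 ^ a * e2 ^ b * algebraMap K Q (f m *
        ((x ^ m.1.toNat * x⁻¹ ^ a * (m.1.toNat.choose a : ℕ)) *
          (y ^ m.2.toNat * y⁻¹ ^ b * (m.2.toNat.choose b : ℕ)))) := by
      intro m hm
      rw [bin_exp hx e1 (hD m hm).1, bin_exp hy e2 (hD m hm).2, sum_mul_sum, smul_sum]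
      apply sum_congr rfl
      intro a _
      rw [smul_sum]
      apply sum_congr rfl
      intro b _
      rw [Algebra.smul_def, map_mul (algebraMap K Q) (f m), map_mul (algebraMap K Q) (x ^ _ * _ * _)]
      ring
    rw [Finsupp.sum, sum_congr rfl e1', sum_comm]
    apply sum_congr rfl
    intro a _
    rw [sum_comm]
    apply sum_congr rfl
    intro b _
    rw [map_sum, mul_sum]
  rw [h3]
  exact sum_eq_zero fun a _ => sum_eq_zero fun b _ => key a b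

theorem mem_ker_pow_comp {K : Type*} [Field K] [CharZero K] {X Y : K} (hX : X ≠ 0)
    (hY : Y ≠ 0) (ev : Lau K →ₐ[K] K)
    {t0 t1 t2 : Lau K} {M e : ℕ} (h0 : ev t0 ≠ 0) (h1 : ev t1 = X * ev t0) (h2 : ev t2 = Y * ev t0 ^ M)
    {f : (ℤ × ℤ) →₀ K} (hsup : ∀ m ∈ f.support, 0 ≤ m.1 ∧ 0 ≤ m.2 ∧ m.1 + M * m.2 ≤ e) {w : ℕ}
    (hf : LM f X Y w) :
    (f.sum fun m c => c • (t0 ^ (e - m.1.toNat - M * m.2.toNat) * t1 ^ m.1.toNat * t2 ^ m.2.toNat)) ∈
      (RingHom.ker (ev : Lau K →+* K)) ^ w := by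
  obtain ⟨I, hI⟩ : ∃ I, I = RingHom.ker (ev : Lau K →+* K) := ⟨_, rfl⟩
  rw [← hI]
  have hmem : ∀ z : Lau K, z ∈ I ↔ ev z = 0 := by
    intro z
    rw [hI, RingHom.mem_ker]
    rfl
  rw [← Ideal.Quotient.eq_zero_iff_mem]
  obtain ⟨q, hq⟩ : ∃ q : Lau K →ₐ[K] (Lau K ⧸ I ^ w), q = Ideal.Quotient.mkₐ K (I ^ w) := ⟨_, rfl⟩
  have hq' : ∀ z, Ideal.Quotient.mk (I ^ w) z = q z := by
    intro z
    rw [hq]
    rfl
  rw [hq']
  obtain ⟨J, hJ⟩ : ∃ J : Ideal (Lau K ⧸ I ^ w), J = I.map (Ideal.Quotient.mk (I ^ w)) := ⟨_, rfl⟩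
  have hJw : J ^ w = ⊥ := by
    rw [hJ, ← Ideal.map_pow, Ideal.map_quotient_self]
  have hJm : ∀ z, ev z = 0 → q z ∈ J := by
    intro z hz
    rw [hJ, ← hq']
    exact Ideal.mem_map_of_mem _ ((hmem z).2 hz)
  -- `q t0` is a unit
  have hu : IsUnit (q t0) := by
    have e1 : ev (1 - t0 * algebraMap K (Lau K) (ev t0)⁻¹) = 0 := by
      rw [map_sub, map_one, map_mul, AlgHom.commutes]
      simp [h0]
    have e2 : IsNilpotent (q (1 - t0 * algebraMap K (Lau K) (ev t0)⁻¹)) := by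
      refine ⟨w, ?_⟩
      have := Ideal.pow_mem_pow (hJm _ e1) w
      rwa [hJw, Ideal.mem_bot] at this
    have e3 := e2.isUnit_one_sub
    rw [map_sub, map_one, sub_sub_cancel, map_mul] at e3
    exact isUnit_of_mul_isUnit_left e3
  obtain ⟨U, hU⟩ := hu
  obtain ⟨u, hu⟩ : ∃ u : Lau K ⧸ I ^ w, u = ((U⁻¹ : (Lau K ⧸ I ^ w)ˣ) : Lau K ⧸ I ^ w) := ⟨_, rfl⟩
  have hu1 : q t0 * u = 1 := by
    rw [← hU, hu, Units.mul_inv]
  have m1 : q t1 * u - algebraMap K (Lau K ⧸ I ^ w) X ∈ J := by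
    have e1 := J.mul_mem_left u (hJm (t1 - algebraMap K (Lau K) X * t0) (by
      rw [map_sub, map_mul, AlgHom.commutes, h1]
      simp))
    rw [map_sub, map_mul, AlgHom.commutes] at e1
    convert e1 using 1
    linear_combination (algebraMap K (Lau K ⧸ I ^ w) X) * hu1
  have hu2 : q t0 ^ M * u ^ M = 1 := by
    rw [← mul_pow, hu1, one_pow]
  have m2 : q t2 * u ^ M - algebraMap K (Lau K ⧸ I ^ w) Y ∈ J := by
    have e1 := J.mul_mem_left (u ^ M) (hJm (t2 - algebraMap K (Lau K) Y * t0 ^ M) (by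
      rw [map_sub, map_mul, AlgHom.commutes, h2, map_pow]
      simp))
    rw [map_sub, map_mul, AlgHom.commutes, map_pow] at e1
    convert e1 using 1
    linear_combination (algebraMap K (Lau K ⧸ I ^ w) Y) * hu2
  have key := LM_eval_nilpotent hJw hX hY m1 m2 (fun m hm => ⟨(hsup m hm).1, (hsup m hm).2.1⟩) hf
  rw [add_sub_cancel, add_sub_cancel] at key
  have key2 : q t0 ^ e * (f.sum fun m c => c • ((q t1 * u) ^ m.1.toNat *
      (q t2 * u ^ M) ^ m.2.toNat)) = 0 := by rw [key, mul_zero]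
  rw [← key2, Finsupp.sum, Finsupp.sum, map_sum, mul_sum]
  apply sum_congr rfl
  intro m hm
  obtain ⟨hm1, hm2, hm3⟩ := hsup m hm
  obtain ⟨p, hp⟩ := Int.eq_ofNat_of_zero_le hm1
  obtain ⟨r, hr⟩ := Int.eq_ofNat_of_zero_le hm2
  rw [hp, hr] at hm3 ⊢
  simp only [Int.toNat_natCast]
  have hle : p + M * r ≤ e := by exact_mod_cast hm3
  obtain ⟨s, hs⟩ : ∃ s, e = s + p + M * r := ⟨e - p - M * r, by omega⟩
  have hs' : e - p - M * r = s := by omega
  rw [hs', map_smul, map_mul, map_mul, map_pow, map_pow, map_pow, mul_smul_comm]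
  congr 1
  have e1 : q t0 ^ e = q t0 ^ s * q t0 ^ p * (q t0 ^ M) ^ r := by
    rw [hs, pow_add, pow_add, pow_mul]
  calc q t0 ^ s * q t1 ^ p * q t2 ^ r
      = q t0 ^ s * (q t0 * u) ^ p * (q t0 ^ M * u ^ M) ^ r * q t1 ^ p * q t2 ^ r := by
        rw [hu1, hu2]; simp
    _ = q t0 ^ e * ((q t1 * u) ^ p * (q t2 * u ^ M) ^ r) := by
        rw [e1, mul_pow, mul_pow, mul_pow, mul_pow]
        ring

end Pool.Agent.TH698
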