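import Mathlib
import Pool.Agent.TH202.FlRes
import Pool.Agent.TH202.Cen
import Pool.Agent.TH755.C8_SEQ

/-!
# Two out of three for the filtration at a valuation ring
-/

set_option autoImplicit false
namespace Pool.Agent.TH698.FL_FILV
open Pool.Agent.H436R3.Fol Pool.Agent.TH202 MvPolynomial Pool.Agent.TH755.C8_SEQ

variable {K : Type} [Field K] [Algebra ℂ K]

/-- The filtration for the sum of two points. -/
theorem fil_gen (d : Dat K) {V : ValuationSubring K} {e : K} (he0 : e ≠ 0) (he : e ∈ V)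
    (he' : e⁻¹ ∉ V) {p q : K × K} (hp : On (cA d) p) (hq : On (cA d) q) (hne : p.1 ≠ q.1)
    (hp0 : p.2 ≠ 0) (hq0 : q.2 ≠ 0) (h1 : p.2⁻¹ * e⁻¹ ∈ V) (h2 : q.2⁻¹ * e⁻¹ ∈ V) :
    (addf (cA d) p q).2⁻¹ * e⁻¹ ∈ V := by
  obtain ⟨ξ, hξ⟩ := ex_xi d
  obtain ⟨V', hV⟩ := ext_val (L := AlgebraicClosure K) V
  have hX : ξ * algebraMap K (AlgebraicClosure K) p.1 ≠ ξ * algebraMap K _ q.1 := by
    intro h
    have h1 := mul_left_cancel₀ (xi_ne' (cA_ne d) hξ) h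
    exact hne ((algebraMap K _).injective h1)
  have key := TH646.C8_FIL.filtration V' (c := algebraMap K _ e) ((map_ne_zero _).2 he0)
    ((hV _).2 he) (by rw [← map_inv₀, hV]; exact he') (on_map hξ hp) (on_map hξ hq) hX
    (x3 := ξ * algebraMap K _ (addf (cA d) p q).1) (y3 := algebraMap K _ (addf (cA d) p q).2)
    (fst_map (cA_ne d) hξ p q) (snd_map (cA_ne d) hξ p q)
    ((map_ne_zero _).2 hp0) ((map_ne_zero _).2 hq0)
    (by rw [← map_inv₀, ← map_inv₀, ← map_mul, hV]; exact h1)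
    (by rw [← map_inv₀, ← map_inv₀, ← map_mul, hV]; exact h2)
  have h3 := key.2
  rw [← map_inv₀, ← map_inv₀, ← map_mul, hV] at h3
  exact h3

omit [Algebra ℂ K] in
theorem ngp_fil {V : ValuationSubring K} {e : K} {p : K × K} (h : p.2⁻¹ * e⁻¹ ∈ V) :
    (ngp p).2⁻¹ * e⁻¹ ∈ V := by
  have : (ngp p).2⁻¹ * e⁻¹ = -(p.2⁻¹ * e⁻¹) := by
    simp [ngp, inv_neg]
  rw [this]
  exact neg_mem h

/-- The first coordinates of the points `k` and `k + 2` are different. -/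
theorem ne_two (d : Dat K) (k : ℕ) : (sq d (k + 3)).1 ≠ (sq d (k + 1)).1 := by
  intro he
  have h := good d k
  obtain ⟨ξ, hξ⟩ := ex_xi d
  obtain ⟨F, hF, h1, h2⟩ := sep (L := AlgebraicClosure K) h.ind (i := 1) (j := 0) (by decide)
    (y := (sq d (k + 1)).2) (z := (sq d (k + 2)).2) rfl rfl
  apply h2
  refine tan_mem hF (cA_ne d) hξ two_ne' h.on0 h.on1 h.ne.symm ?_ h.y0 h1
  rw [← addf_comm h.ne, ← sq_add]
  exact he

theorem back_two (d : Dat K) (k : ℕ) :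
    sq d (k + 2) = addf (cA d) (sq d (k + 3)) (ngp (sq d (k + 1))) := by
  have h1 := ne_two d k
  rw [sq_add] at h1 ⊢
  exact (inv (ne_all d k) h1).symm

theorem filV_sq (d : Dat K) (V : ValuationSubring K) (hC : ∀ z : ℂ, algebraMap ℂ K z ∈ V) (e : K)
    (he0 : e ≠ 0) (he : e ∈ V) (he' : e⁻¹ ∉ V) (k : ℕ) (hk : 1 ≤ k) :
      ((sq d k).2⁻¹ * e⁻¹ ∈ V → (sq d (k + 1)).2⁻¹ * e⁻¹ ∈ V → (sq d (k + 2)).2⁻¹ * e⁻¹ ∈ V) ∧
      ((sq d (k + 1)).2⁻¹ * e⁻¹ ∈ V → (sq d (k + 2)).2⁻¹ * e⁻¹ ∈ V → (sq d k).2⁻¹ * e⁻¹ ∈ V) ∧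
      ((sq d k).2⁻¹ * e⁻¹ ∈ V → (sq d (k + 2)).2⁻¹ * e⁻¹ ∈ V →
        (sq d (k + 1)).2⁻¹ * e⁻¹ ∈ V) := by
  obtain ⟨j, rfl⟩ : ∃ j, k = j + 1 := ⟨k - 1, by omega⟩
  have n0 : ∀ i, (ngp (sq d i)).2 ≠ 0 := fun i => neg_ne_zero.2 (y_ne_all d i)
  refine ⟨fun h0 h1 => ?_, fun h1 h2 => ?_, fun h0 h2 => ?_⟩
  · rw [sq_add]
    exact fil_gen d he0 he he' (on_all d _) (on_all d _) (ne_all d j) (y_ne_all d _)
      (y_ne_all d _) h1 h0
  · rw [back_all]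
    exact fil_gen d he0 he he' (on_all d _) (on_all d _).neg (ne_all d (j + 1)) (y_ne_all d _)
      (n0 _) h2 (ngp_fil h1)
  · rw [back_two]
    exact fil_gen d he0 he he' (on_all d _) (on_all d _).neg (ne_two d j) (y_ne_all d _)
      (n0 _) h2 (ngp_fil h0)

end Pool.Agent.TH698.FL_FILV
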