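import Pool.Agent.TH597.IV.Stm

set_option autoImplicit false

open MeasureTheory Set Filter Topology
open scoped InnerProductSpace

namespace Pool.Agent.TH698.IV_OPER

open Pool.Agent.H721R2.Ivrii Pool.Agent.TH597.IV

variable {E : Type} [NormedAddCommGroup E] [InnerProductSpace ℝ E]
  [FiniteDimensional ℝ E] [MeasurableSpace E] [BorelSpace E]
  [MeasurableSpace (E →L[ℝ] E)] [BorelSpace (E →L[ℝ] E)]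

/-- The local statement. -/
theorem loc (h1 : NULL) (h2 : LOC) (μ : Measure (E →L[ℝ] E)) [μ.IsAddHaarMeasure] (Ω : Set E)
    (n : ℕ) (hn : n ≤ Module.finrank ℝ E) (w : (E →L[ℝ] E) × ((ℕ → E) × (ℕ → E)))
    (hw : IsUnit w.1 ∧ Orbit (w.1 '' Ω) n w.2.1 w.2.2) :
    ∃ Y : (E →L[ℝ] E) → Set (E × E),
      (∀ᵐ S ∂μ, μH[(2 * Module.finrank ℝ E - 2 : ℕ)] (Y S) = 0) ∧
      ∀ᶠ w' in 𝓝 w, (IsUnit w'.1 ∧ Orbit (w'.1 '' Ω) n w'.2.1 w'.2.2) →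
        (w'.2.1 0, w'.2.2 0) ∈ Y w'.1 := by
  obtain ⟨T, p, u⟩ := w
  obtain ⟨a, b, F, ha, hb, hFn, ⟨K, hK⟩, hev⟩ := h2 E Ω T n p u hw.1 hw.2
  have hfr : Module.finrank ℝ ((ℝ ∙ a)ᗮ × (ℝ ∙ b)ᗮ) = 2 * Module.finrank ℝ E - 2 := by
    have h1 := Submodule.finrank_add_finrank_orthogonal (ℝ ∙ a)
    have h2 := Submodule.finrank_add_finrank_orthogonal (ℝ ∙ b)
    rw [finrank_span_singleton ha] at h1
    rw [finrank_span_singleton hb] at h2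
    rw [Module.finrank_prod]
    omega
  have : ProperSpace (E →L[ℝ] E) := FiniteDimensional.proper ℝ _
  have : ProperSpace ((ℝ ∙ a)ᗮ × (ℝ ∙ b)ᗮ) := FiniteDimensional.proper ℝ _
  have : (μH[Module.finrank ℝ ((ℝ ∙ a)ᗮ × (ℝ ∙ b)ᗮ)] :
      Measure ((ℝ ∙ a)ᗮ × (ℝ ∙ b)ᗮ)).IsAddHaarMeasure := inferInstance
  have : SFinite μ := inferInstance
  have : SFinite (μH[Module.finrank ℝ ((ℝ ∙ a)ᗮ × (ℝ ∙ b)ᗮ)] :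
      Measure ((ℝ ∙ a)ᗮ × (ℝ ∙ b)ᗮ)) := inferInstance
  have : (μ.prod (μH[Module.finrank ℝ ((ℝ ∙ a)ᗮ × (ℝ ∙ b)ᗮ)] :
      Measure ((ℝ ∙ a)ᗮ × (ℝ ∙ b)ᗮ))).IsAddHaarMeasure := inferInstance
  have h0 := h1 E ((ℝ ∙ a)ᗮ × (ℝ ∙ b)ᗮ)
    (μ.prod (μH[Module.finrank ℝ ((ℝ ∙ a)ᗮ × (ℝ ∙ b)ᗮ)])) F (by rw [hFn]; exact hn)
  have h3 : ∀ᵐ z ∂(μ.prod (μH[Module.finrank ℝ ((ℝ ∙ a)ᗮ × (ℝ ∙ b)ᗮ)])), z ∉ F.A :=
    measure_eq_zero_iff_ae_notMem.1 h0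
  have h4 := Measure.ae_ae_of_ae_prod h3
  refine ⟨fun S => (fun ζ : (ℝ ∙ a)ᗮ × (ℝ ∙ b)ᗮ => (S (F.x 0 (S, ζ)), F.e 0 (S, ζ))) ''
    {ζ | (S, ζ) ∈ F.A}, ?_, ?_⟩
  · filter_upwards [h4] with S hS
    have h5 : μH[Module.finrank ℝ ((ℝ ∙ a)ᗮ × (ℝ ∙ b)ᗮ)]
        {ζ : (ℝ ∙ a)ᗮ × (ℝ ∙ b)ᗮ | (S, ζ) ∈ F.A} = 0 :=
      measure_eq_zero_iff_ae_notMem.2 hS
    rw [hfr] at h5
    have hK' : LipschitzOnWith K (fun ζ : (ℝ ∙ a)ᗮ × (ℝ ∙ b)ᗮ =>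
        (S (F.x 0 (S, ζ)), F.e 0 (S, ζ))) {ζ | (S, ζ) ∈ F.A} :=
      (hK S).mono fun z hz => hz.1
    have h6 := hK'.hausdorffMeasure_image_le
      (d := ((2 * Module.finrank ℝ E - 2 : ℕ) : ℝ)) (Nat.cast_nonneg _)
    rw [h5, mul_zero] at h6
    exact nonpos_iff_eq_zero.mp h6
  · filter_upwards [hev] with w' hw' hor
    obtain ⟨ζ, hζ, he⟩ := hw' hor.2
    exact ⟨ζ, hζ, he⟩

theorem fixed (h1 : NULL) (h2 : LOC) (μ : Measure (E →L[ℝ] E)) [μ.IsAddHaarMeasure] (Ω : Set E)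
    (n : ℕ) (hn : n ≤ Module.finrank ℝ E) :
    ∀ᵐ S : E →L[ℝ] E ∂μ, IsUnit S → μH[(2 * Module.finrank ℝ E - 2 : ℕ)]
      {z : E × E | ∃ p u : ℕ → E, Orbit (S '' Ω) n p u ∧ (p 0, u 0) = z} = 0 := by
  classical
  let W : Set ((E →L[ℝ] E) × ((ℕ → E) × (ℕ → E))) :=
    {w | IsUnit w.1 ∧ Orbit (w.1 '' Ω) n w.2.1 w.2.2}
  have h := fun (w : (E →L[ℝ] E) × ((ℕ → E) × (ℕ → E))) (hw : w ∈ W) =>
    loc h1 h2 μ Ω n hn w hw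
  choose! Y hY hY' using h
  obtain ⟨t, htW, htc, hcov⟩ := TopologicalSpace.countable_cover_nhdsWithin
    (f := fun w => {w' : (E →L[ℝ] E) × ((ℕ → E) × (ℕ → E)) |
      (IsUnit w'.1 ∧ Orbit (w'.1 '' Ω) n w'.2.1 w'.2.2) →
        (w'.2.1 0, w'.2.2 0) ∈ Y w w'.1}) (s := W)
    (fun w hw => mem_nhdsWithin_of_mem_nhds (hY' w hw))
  have h3 : ∀ᵐ S ∂μ, ∀ w ∈ t, μH[(2 * Module.finrank ℝ E - 2 : ℕ)] (Y w S) = 0 :=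
    (ae_ball_iff htc).2 fun w hw => hY w (htW hw)
  filter_upwards [h3] with S hS hu
  refine measure_mono_null (t := ⋃ w ∈ t, Y w S) ?_ ((measure_biUnion_null_iff htc).2 hS)
  rintro _ ⟨p, u, ho, rfl⟩
  have hw : (S, (p, u)) ∈ W := ⟨hu, ho⟩
  obtain ⟨w0, hw0, h4⟩ := mem_iUnion₂.1 (hcov hw)
  exact mem_iUnion₂.2 ⟨w0, hw0, h4 ⟨hu, ho⟩⟩

theorem oper (h1 : Pool.Agent.TH597.IV.NULL) (h2 : Pool.Agent.TH597.IV.LOC) :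
    Pool.Agent.TH597.IV.OPER := by
  intro E _ _ _ _ _ _ _ μ _ Ω _
  have h3 : ∀ᵐ S : E →L[ℝ] E ∂μ, ∀ n ∈ {n : ℕ | n ≤ Module.finrank ℝ E}, IsUnit S →
      μH[(2 * Module.finrank ℝ E - 2 : ℕ)]
      {z : E × E | ∃ p u : ℕ → E, Orbit (S '' Ω) n p u ∧ (p 0, u 0) = z} = 0 :=
    (ae_ball_iff (Set.to_countable _)).2 fun n hn => fixed h1 h2 μ Ω n hn
  filter_upwards [h3] with S hS hu
  refine measure_mono_null (t := ⋃ n ∈ {n : ℕ | n ≤ Module.finrank ℝ E},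
    {z : E × E | ∃ p u : ℕ → E, Orbit (S '' Ω) n p u ∧ (p 0, u 0) = z}) ?_
    ((measure_biUnion_null_iff (Set.to_countable _)).2 fun n hn => hS n hn hu)
  rintro z ⟨n, hn, p, u, ho, hz⟩
  exact mem_iUnion₂.2 ⟨n, hn, p, u, ho, hz⟩

end Pool.Agent.TH698.IV_OPER
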