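import Pool.Agent.TH824.BK.Eis2

/-!
# Vanishing of the constant term (job BK-J10)
-/

open Polynomial IsDedekindDomain Matrix MeasureTheory
open scoped WithZero RestrictedProduct

noncomputable section
namespace TH824.BK

open J838

namespace J10

lemma nA_add (x y : AK) : nA (x + y) = nA x * nA y := by
  apply GA_ext
  · intro v
    change nmat ((x + y).1 v) = nmat (x.1 v) * nmat (y.1 v)
    rw [nmat_mul]
    rfl
  · change nmat ((x + y).2) = nmat x.2 * nmat y.2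
    rw [nmat_mul]
    rfl

lemma map_nmat {F E : Type} [Field F] [Field E] (φ : F →+* E) (x : F) :
    Matrix.GeneralLinearGroup.map φ (nmat x) = nmat (φ x) := by
  apply Units.ext
  ext i j
  fin_cases i <;> fin_cases j <;> simp

lemma nA_alg (ξ : Kx) : nA (algebraMap Kx AK ξ) = idiag (nmat ξ) := by
  apply GA_ext
  · intro v
    rw [idiag_fst, map_nmat]
    rfl
  · rw [idiag_snd, map_nmat]
    rfl

lemma nA_inf (y : Kinf) {g' : GA} (h : g'.2 = 1) (k : GL (Fin 2) Kinf) :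
    g' * iinf (nmat y * k) = nA (0, y) * (g' * iinf k) := by
  apply GA_ext
  · intro v
    have h0 : (nA (0, y)).1 v = 1 := by
      change nmat (0 : Kv v) = 1
      exact nmat_zero
    simp [h0]
  · have h1 : (nA (0, y)).2 = nmat y := rfl
    simp [h, h1]

/-- the function on `K\A` -/
def Dg (F : GA → ℂ) (g : GA) (x : AK ⧸ KA) : ℂ := F (nA (Quotient.out x) * g)

variable {F : GA → ℂ}

lemma Dg_mk (hF : ∀ γ x, F (idiag γ * x) = F x) (g : GA) (y : AK) :
    Dg F g (QuotientAddGroup.mk y) = F (nA y * g) := by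
  obtain ⟨⟨k, hk⟩, h⟩ := QuotientAddGroup.mk_out_eq_add KA y
  obtain ⟨ξ, hξ⟩ := hk
  have h2 : Quotient.out (QuotientAddGroup.mk y : AK ⧸ KA) = algebraMap Kx AK ξ + y := by
    have h3 : Quotient.out (QuotientAddGroup.mk y : AK ⧸ KA) = y + k := h
    rw [h3, ← hξ]
    exact add_comm _ _
  unfold Dg
  rw [h2, nA_add, nA_alg, mul_assoc, hF]

lemma smooth_cont (h : IsSmooth rt F) : Continuous F := by
  obtain ⟨U, hU, hU'⟩ := h
  apply IsLocallyConstant.continuous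
  rw [IsLocallyConstant.iff_exists_open]
  intro x
  refine ⟨(fun y => x⁻¹ * y) ⁻¹' (U : Set GA), hU.preimage (by fun_prop), ?_, fun y hy => ?_⟩
  · change x⁻¹ * x ∈ U
    rw [inv_mul_cancel]
    exact U.one_mem
  · have h1 := congrFun (hU' _ hy) x
    have h2 : F (x * (x⁻¹ * y)) = F x := h1
    rwa [mul_inv_cancel_left] at h2

lemma Dg_cont (hF : ∀ γ x, F (idiag γ * x) = F x) (hs : IsSmooth rt F) (g : GA) :
    Continuous (Dg F g) := by
  have hq : Topology.IsQuotientMap (QuotientAddGroup.mk : AK → AK ⧸ KA) :=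
    QuotientAddGroup.isQuotientMap_mk KA
  rw [hq.continuous_iff]
  have : Dg F g ∘ QuotientAddGroup.mk = fun y => F (nA y * g) := funext (Dg_mk hF g)
  rw [this]
  exact (smooth_cont hs).comp (continuous_nA.mul continuous_const)

lemma Dg_shift (hF : ∀ γ x, F (idiag γ * x) = F x) (g : GA) (y : AK) (z : AK ⧸ KA) :
    Dg F (nA y * g) z = Dg F g (QuotientAddGroup.mk y + z) := by
  obtain ⟨x, rfl⟩ := QuotientAddGroup.mk_surjective z
  rw [Dg_mk hF, ← QuotientAddGroup.mk_add, Dg_mk hF, ← mul_assoc, ← nA_add, add_comm]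

instance compQ : CompactSpace (AK ⧸ KA) :=
  compact_quot strong_approx_fin approx_inf fin_res_v fin_res_inf

variable (μ : Measure (AK ⧸ KA)) [μ.IsAddHaarMeasure]

lemma Dg_int (hF : ∀ γ x, F (idiag γ * x) = F x) (hs : IsSmooth rt F) (g : GA) :
    Integrable (Dg F g) μ :=
  (Dg_cont hF hs g).integrable_of_hasCompactSupport (HasCompactSupport.of_compactSpace _)

lemma Phi_shift (hF : ∀ γ x, F (idiag γ * x) = F x) (g : GA) (y : AK) :
    ∫ z, Dg F (nA y * g) z ∂μ = ∫ z, Dg F g z ∂μ := by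
  simp_rw [Dg_shift hF]
  exact integral_add_left_eq_self _ _

/-- the three properties which are inherited by the orbit -/
def Good (F : GA → ℂ) : Prop :=
  (∀ γ x, F (idiag γ * x) = F x) ∧ IsSmooth rt F ∧ ∀ g, ∫ z, Dg F g z ∂μ = 0

lemma good_orb (h : Good μ F) : ∀ G ∈ orb rt F, Good μ G := by
  intro G hG
  refine Submodule.span_induction (p := fun G _ => Good μ G) ?_ ?_ ?_ ?_ hG
  · rintro _ ⟨k, rfl⟩
    refine ⟨fun γ x => ?_, h.2.1.translate k, fun g => ?_⟩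
    · change F (idiag γ * x * k) = F (x * k)
      rw [mul_assoc, h.1]
    · have h1 : ∀ z, Dg (rt k F) g z = Dg F (g * k) z := by
        intro z
        change F (nA (Quotient.out z) * g * k) = F (nA (Quotient.out z) * (g * k))
        rw [mul_assoc]
      simp_rw [h1]
      exact h.2.2 _
  · refine ⟨fun _ _ => rfl, IsSmooth.zero, fun g => ?_⟩
    have h1 : ∀ z, Dg 0 g z = 0 := fun _ => rfl
    simp_rw [h1]
    simp
  · intro A B _ _ hA hB
    refine ⟨fun γ x => ?_, hA.2.1.add hB.2.1, fun g => ?_⟩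
    · rw [Pi.add_apply, Pi.add_apply, hA.1, hB.1]
    · have h1 : ∀ z, Dg (A + B) g z = Dg A g z + Dg B g z := fun _ => rfl
      simp_rw [h1]
      rw [integral_add (Dg_int μ hA.1 hA.2.1 g) (Dg_int μ hB.1 hB.2.1 g), hA.2.2, hB.2.2, add_zero]
  · intro c A _ hA
    refine ⟨fun γ x => ?_, IsSmooth.smul c hA.2.1, fun g => ?_⟩
    · rw [Pi.smul_apply, Pi.smul_apply, hA.1]
    · have h1 : ∀ z, Dg (c • A) g z = c * Dg A g z := fun _ => rfl
      simp_rw [h1]
      rw [integral_const_mul, hA.2.2, mul_zero]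

/-! ### Matrix identities -/

section mats

variable {E : Type} [Field E]

lemma nmat_inv (x : E) : (nmat x : GL (Fin 2) E)⁻¹ = nmat (-x) := by
  rw [inv_eq_iff_mul_eq_one, nmat_mul, add_neg_cancel, nmat_zero]

lemma nmat_bmat (a d : Eˣ) (ξ x : E) :
    nmat x * bmat a d ξ = bmat a d ξ * nmat (x * d / a) := by
  have ha : (a : E) ≠ 0 := a.ne_zero
  ext i j
  fin_cases i <;> fin_cases j <;> simp [Matrix.mul_apply, Fin.sum_univ_two]
  field_simp
  ring

lemma local_eq (a d : Eˣ) (ξ ξ' x : E) (g : GL (Fin 2) E) :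
    (bmat a d ξ * nmat ξ')⁻¹ * (nmat x * g) =
      nmat (x * d / a - ξ') * ((bmat a d ξ)⁻¹ * g) := by
  rw [inv_mul_eq_iff_eq_mul]
  have h1 : (nmat ξ' : GL (Fin 2) E) * nmat (x * d / a - ξ') = nmat (x * d / a) := by
    rw [nmat_mul]; congr 1; ring
  calc nmat x * g = nmat x * bmat a d ξ * ((bmat a d ξ)⁻¹ * g) := by group
    _ = bmat a d ξ * nmat (x * d / a) * ((bmat a d ξ)⁻¹ * g) := by rw [nmat_bmat]
    _ = bmat a d ξ * (nmat ξ' * nmat (x * d / a - ξ')) * ((bmat a d ξ)⁻¹ * g) := by rw [h1]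
    _ = _ := by group

lemma inf_eq (a d c : Eˣ) (ξ : E) :
    (bmat a d ξ)⁻¹ * amat c = zmat d⁻¹ * (nmat (-(ξ / a)) * amat (c * d * a⁻¹)) := by
  have ha : (a : E) ≠ 0 := a.ne_zero
  have hd : (d : E) ≠ 0 := d.ne_zero
  rw [inv_mul_eq_iff_eq_mul]
  ext i j
  fin_cases i <;> fin_cases j <;> simp [Matrix.mul_apply, Fin.sum_univ_two, hd]
  · field_simp
  · field_simp
    ring

end mats

/-! ### Vanishing near infinity -/

lemma amat_mem' {E : Type} [Field E] [Valued E ℤᵐ⁰] (e : Eˣ) (he : Valued.v (e : E) = 1) :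
    amat e ∈ Iw E := by
  refine ⟨⟨fun i j => ?_, ?_⟩, ?_⟩
  · fin_cases i <;> fin_cases j <;> simp [he]
  · simp [he, Matrix.det_fin_two]
  · simp

section van

variable {f : GA → ℂ}

lemma vanish_inf (hleft : ∀ γ x, f (idiag γ * x) = f x)
    (hst : IsStVec (pull iinf rt) pinf f)
    (hZ : ∀ kf : GA, kf.2 = 1 → (∀ v, kf.1 v ∈ GO (Kv v)) → ∀ N : ℕ, 1 ≤ N →
      f (kf * iinf (an N)) = 0)
    (y : GA) (hy : ∀ v, y.1 v ∈ GO (Kv v)) (z c : Kinfˣ) (s : Kinf) (N : ℕ) (hN : 1 ≤ N)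
    (hc : Valued.v (c : Kinf) = WithZero.exp (N : ℤ))
    (h2 : y.2 = zmat z * (nmat s * amat c)) : f y = 0 := by
  obtain ⟨r, hr⟩ := approx_inf s
  obtain ⟨r', hr'⟩ : ∃ r' : Kinf, r' = algebraMap Kx Kinf (algebraMap Rx Kx r) := ⟨_, rfl⟩
  rw [← hr'] at hr
  have hp : Valued.v (pinf : Kinf) = WithZero.exp (-1 : ℤ) := v_pinf
  obtain ⟨κ, hκ⟩ : ∃ κ : GL (Fin 2) Kinf,
      κ = amat (c * pinf ^ N) * nmat (((c⁻¹ : Kinfˣ) : Kinf) * (s - r')) := ⟨_, rfl⟩
  have hκI : κ ∈ Iw Kinf := by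
    rw [hκ]
    refine (Iw Kinf).mul_mem (amat_mem' _ ?_) (nmat_mem _ ?_)
    · rw [Units.val_mul, Units.val_pow_eq_pow_val, map_mul, map_pow, hc, hp,
        ← WithZero.exp_nsmul, ← WithZero.exp_add]
      simp
    · rw [map_mul, Units.val_inv_eq_inv_val, map_inv₀, hc, ← WithZero.exp_neg]
      refine mul_le_one' ?_ hr.le
      rw [← WithZero.exp_zero, WithZero.exp_le_exp]
      omega
  have h3 : nmat r' * an N * κ = nmat s * amat c := by
    have e1 : amat (pinf⁻¹ ^ N) * amat (c * pinf ^ N) = amat c := by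
      rw [amat_mul]
      congr 1
      rw [inv_pow, mul_comm c, inv_mul_cancel_left]
    rw [hκ, an, mul_assoc, ← mul_assoc (amat (pinf⁻¹ ^ N)), e1, amat_nmat, ← mul_assoc, nmat_mul]
    congr 2
    rw [← mul_assoc, ← Units.val_mul, mul_inv_cancel, Units.val_one, one_mul]
    ring
  obtain ⟨h, hh⟩ : ∃ h : GL (Fin 2) Kinf, h = κ * zmat z := ⟨_, rfl⟩
  have h4 : y.2 = nmat r' * an N * h := by
    rw [h2, ← h3, hh, zmat_comm, mul_assoc]
  have hfix : rt (iinf h) f = f := by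
    rw [hh, map_mul, ← rt_mul]
    have e1 : rt (iinf (zmat z)) f = f := hst.z z
    have e2 : rt (iinf κ) f = f := hst.iw κ hκI
    rw [e1, e2]
  obtain ⟨Y, hY⟩ : ∃ Y : GA, Y = y * (iinf h)⁻¹ := ⟨_, rfl⟩
  have h5 : f y = f Y := by
    have := congrFun hfix Y
    rw [rt_apply, hY, inv_mul_cancel_right] at this
    rw [this, hY]
  have hY1 : ∀ v, Y.1 v = y.1 v := by
    intro v
    rw [hY]
    simp
  have hY2 : Y.2 = nmat r' * an N := by
    rw [hY, GA_mul_snd, GA_inv_snd, iinf_snd, h4, mul_inv_cancel_right]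
  obtain ⟨kf, hkf⟩ : ∃ kf : GA, kf = (idiag (ofR (nR r)))⁻¹ * Y * (iinf (an N))⁻¹ := ⟨_, rfl⟩
  have hk2 : kf.2 = 1 := by
    rw [hkf, GA_mul_snd, GA_mul_snd, GA_inv_snd, GA_inv_snd, iinf_snd, idiag_snd, map_nR, hY2,
      ← hr']
    group
  have hk1 : ∀ v, kf.1 v ∈ GO (Kv v) := by
    intro v
    rw [hkf, GA_mul_fst, GA_mul_fst, GA_inv_fst, GA_inv_fst, hY1, idiag_fst]
    refine (GO _).mul_mem ((GO _).mul_mem ((GO _).inv_mem (ofR_mem _ v)) (hy v)) ?_
    rw [iinf_fst, RestrictedProduct.one_apply, inv_one]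
    exact (GO _).one_mem
  have hYk : Y = idiag (ofR (nR r)) * (kf * iinf (an N)) := by
    rw [hkf]
    group
  rw [h5, hYk, hleft]
  exact hZ kf hk2 hk1 N hN

lemma vanish (hleft : ∀ γ x, f (idiag γ * x) = f x)
    (hst : IsStVec (pull iinf rt) pinf f)
    (hZ : ∀ kf : GA, kf.2 = 1 → (∀ v, kf.1 v ∈ GO (Kv v)) → ∀ N : ℕ, 1 ≤ N →
      f (kf * iinf (an N)) = 0) (g' : GA) (hg' : g'.2 = 1) :
    ∃ m0 : ℤ, ∀ m ≤ m0, ∀ x : AK, f (nA x * (g' * iinf (amat (pinf ^ m)))) = 0 := by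
  obtain ⟨a, d, ξ, h⟩ := gfin_decomp strong_approx_fin g'.1
  obtain ⟨r, hr⟩ : ∃ r : Kx, r = (d : Kx) / a := ⟨_, rfl⟩
  have hr0 : r ≠ 0 := by
    rw [hr]
    exact div_ne_zero d.ne_zero a.ne_zero
  have hv0 : Valued.v (algebraMap Kx Kinf r) ≠ 0 := by
    rw [Valuation.ne_zero_iff]
    exact (_root_.map_ne_zero _).2 hr0
  refine ⟨WithZero.log (Valued.v (algebraMap Kx Kinf r)) - 1, fun m hm x => ?_⟩
  obtain ⟨ξ', hξ'⟩ := strong_approx_fin (x.1 * algebraMap Kx (FiniteAdeleRing Rx Kx) r)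
  obtain ⟨γ, hγ⟩ : ∃ γ : GL (Fin 2) Kx, γ = bmat a d ξ * nmat ξ' := ⟨_, rfl⟩
  obtain ⟨y, hy⟩ : ∃ y : GA, y = (idiag γ)⁻¹ * (nA x * (g' * iinf (amat (pinf ^ m)))) := ⟨_, rfl⟩
  have h1 : f (nA x * (g' * iinf (amat (pinf ^ m)))) = f y := by
    rw [← hleft γ y, hy, mul_inv_cancel_left]
  rw [h1]
  have hmap : ∀ {E : Type} [Field E] (φ : Kx →+* E), Matrix.GeneralLinearGroup.map φ γ =
      bmat (Units.map φ a) (Units.map φ d) (φ ξ) * nmat (φ ξ') := by
    intro E _ φ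
    rw [hγ, map_mul, J841_map_bmat, map_nmat]
  have hN : 1 ≤ (WithZero.log (Valued.v (algebraMap Kx Kinf r)) - m).toNat := by omega
  refine vanish_inf hleft hst hZ y ?_ (Units.map (algebraMap Kx Kinf : Kx →* Kinf) d)⁻¹
    (pinf ^ m * Units.map (algebraMap Kx Kinf : Kx →* Kinf) d *
      (Units.map (algebraMap Kx Kinf : Kx →* Kinf) a)⁻¹)
    (x.2 * algebraMap Kx Kinf d / algebraMap Kx Kinf a - algebraMap Kx Kinf ξ' -
      algebraMap Kx Kinf ξ / algebraMap Kx Kinf a) _ hN ?_ ?_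
  · intro v
    have e1 : y.1 v = (Matrix.GeneralLinearGroup.map (algebraMap Kx (Kv v)) γ)⁻¹ *
        (nmat (x.1 v) * g'.1 v) := by
      rw [hy, GA_mul_fst, GA_inv_fst, GA_mul_fst, GA_mul_fst, iinf_fst, idiag_fst,
        RestrictedProduct.one_apply, mul_one]
      rfl
    rw [e1, hmap, local_eq]
    have e2 := h v
    rw [J841_map_bmat] at e2
    refine (GO _).mul_mem (nmat_mem_GO ?_) e2
    have e3 := hξ' v
    have e4 : (x.1 * algebraMap Kx (FiniteAdeleRing Rx Kx) r) v =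
        x.1 v * algebraMap Kx (Kv v) d / algebraMap Kx (Kv v) a := by
      have : (x.1 * algebraMap Kx (FiniteAdeleRing Rx Kx) r) v =
        x.1 v * algebraMap Kx (Kv v) r := rfl
      rw [this, hr, map_div₀, mul_div_assoc]
    rw [e4] at e3
    exact e3
  · have e0 : Valued.v (algebraMap Kx Kinf r) =
        WithZero.exp (WithZero.log (Valued.v (algebraMap Kx Kinf r))) := (WithZero.exp_log hv0).symm
    have e1 : ((pinf ^ m * Units.map (algebraMap Kx Kinf : Kx →* Kinf) d *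
      (Units.map (algebraMap Kx Kinf : Kx →* Kinf) a)⁻¹ : Kinfˣ) : Kinf) =
        ((pinf ^ m : Kinfˣ) : Kinf) * algebraMap Kx Kinf r := by
      rw [hr, map_div₀, Units.val_mul, Units.val_mul, Units.val_inv_eq_inv_val, mul_assoc,
        ← div_eq_mul_inv]
      rfl
    rw [e1, map_mul, v_zpow v_pinf, e0, WithZero.log_exp, ← WithZero.exp_add]
    congr 1
    omega
  · have e1 : y.2 = (Matrix.GeneralLinearGroup.map (algebraMap Kx Kinf) γ)⁻¹ *
        (nmat x.2 * amat (pinf ^ m)) := by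
      rw [hy, GA_mul_snd, GA_inv_snd, GA_mul_snd, GA_mul_snd, iinf_snd, idiag_snd, hg', one_mul]
      rfl
    rw [e1, hmap, local_eq, inf_eq, ← mul_assoc, ← zmat_comm, mul_assoc, ← mul_assoc (nmat _),
      nmat_mul]
    congr 2
    rw [← sub_eq_add_neg]
    rfl

end van

end J10

/-- left invariant, smooth functions `F` give continuous functions on `A_K/K` -/
theorem cuspidal_of (f : GA → ℂ) (hleft : ∀ γ x, f (idiag γ * x) = f x)
    (hsm : IsSmooth rt f) (hst : IsStVec (pull iinf rt) pinf f)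
    (hZ : ∀ kf : GA, kf.2 = 1 → (∀ v, kf.1 v ∈ GO (Kv v)) → ∀ N : ℕ, 1 ≤ N →
      f (kf * iinf (an N)) = 0) :
    ∀ F ∈ orb rt f, ∀ (g : GA) (μ : Measure (AK ⧸ KA)) [μ.IsAddHaarMeasure],
      ∫ x : AK ⧸ KA, F (nA (Quotient.out x) * g) ∂μ = 0 := by
  intro F hF g μ _
  refine (J10.good_orb μ ⟨hleft, hsm, fun g => ?_⟩ F hF).2.2 g
  obtain ⟨y, m, ε, hB⟩ := exists_B v_pinf hst g.2
  obtain ⟨g', hg'⟩ : ∃ g' : GA, g' = g * iinf (g.2)⁻¹ := ⟨_, rfl⟩
  have hg2 : g'.2 = 1 := by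
    rw [hg', GA_mul_snd, iinf_snd, mul_inv_cancel]
  have e1 : ∀ z, J10.Dg f g z = ε * J10.Dg f (g' * iinf (nmat y * amat (pinf ^ m))) z := by
    intro z
    have h1 := congrFun hB (nA (Quotient.out z) * g')
    have h2 : f (nA (Quotient.out z) * g' * iinf g.2) =
      ε * f (nA (Quotient.out z) * g' * iinf (nmat y * amat (pinf ^ m))) := h1
    have h3 : nA (Quotient.out z) * g' * iinf g.2 = nA (Quotient.out z) * g := by
      rw [hg', map_inv]
      group
    rw [h3] at h2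
    rw [J10.Dg, J10.Dg, h2, mul_assoc]
  obtain ⟨φ, hφ⟩ : ∃ φ : ℤ → ℂ, ∀ m, φ m = ∫ z, J10.Dg f (g' * iinf (amat (pinf ^ m))) z ∂μ :=
    ⟨_, fun _ => rfl⟩
  have hφy : ∀ y m, ∫ z, J10.Dg f (g' * iinf (nmat y * amat (pinf ^ m))) z ∂μ = φ m := by
    intro y m
    rw [J10.nA_inf y hg2, J10.Phi_shift μ hleft, hφ]
  have hstep : ∀ m, φ m = 2 * φ (m + 1) := by
    intro m
    have h1 : ∀ z, J10.Dg f (g' * iinf (nmat 0 * amat (pinf ^ m))) z =
        J10.Dg f (g' * iinf (nmat 0 * amat (pinf ^ (m + 1)))) z +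
        J10.Dg f (g' * iinf (nmat (0 + ((pinf ^ m : Kinfˣ) : Kinf)) * amat (pinf ^ (m + 1)))) z := by
      intro z
      have h2 := congrFun (refine_B hst 0 m) (nA (Quotient.out z) * g')
      have h3 : f (nA (Quotient.out z) * g' * iinf (nmat 0 * amat (pinf ^ m))) =
        f (nA (Quotient.out z) * g' * iinf (nmat 0 * amat (pinf ^ (m + 1)))) +
        f (nA (Quotient.out z) * g' *
          iinf (nmat (0 + ((pinf ^ m : Kinfˣ) : Kinf)) * amat (pinf ^ (m + 1)))) := h2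
      rw [J10.Dg, J10.Dg, J10.Dg, ← mul_assoc, ← mul_assoc, ← mul_assoc, h3]
    rw [← hφy 0 m]
    simp_rw [h1]
    rw [integral_add (J10.Dg_int μ hleft hsm _) (J10.Dg_int μ hleft hsm _), hφy, hφy]
    ring
  obtain ⟨m0, hm0⟩ := J10.vanish hleft hst hZ g' hg2
  have hlow : ∀ m ≤ m0, φ m = 0 := by
    intro m hm
    rw [hφ]
    have h1 : ∀ z, J10.Dg f (g' * iinf (amat (pinf ^ m))) z = 0 := fun z => hm0 m hm _
    simp_rw [h1]
    simp
  have hup : ∀ n : ℕ, φ (m0 + n) = 0 := by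
    intro n
    induction n with
    | zero => exact hlow _ (by simp)
    | succ n ih =>
      have h1 := hstep (m0 + n)
      rw [ih] at h1
      have h2 : φ (m0 + n + 1) = 0 := by
        rcases mul_eq_zero.1 h1.symm with h | h
        · norm_num at h
        · exact h
      rw [← h2]
      congr 1
      push_cast
      ring
  have hall : ∀ m, φ m = 0 := by
    intro m
    rcases le_total m m0 with h | h
    · exact hlow m h
    · have h1 := hup (m - m0).toNat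
      rw [← h1]
      congr 1
      omega
  simp_rw [e1]
  rw [integral_const_mul, hφy, hall, mul_zero]

end TH824.BK
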