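import Mathlib
import Pool.Agent.H71R3.FS3

/-!
# Coefficients of non-unitary representations: the analytic part

If the diagonal coefficients `g ↦ ⟪x, π(g) x⟫` are combinations of positive definite functions for a
non-meagre set of vectors `x`, then `‖∑ a(g) π(g)‖ ≤ C ‖a‖` for the maximal C*-norm of `ℂ[G]`.
-/

set_option autoImplicit false

namespace Pool.Agent.TH698.Dix

open Pool.Agent.H71R3.FS

variable {G : Type} [Group G] {H : Type} [NormedAddCommGroup H] [InnerProductSpace ℂ H]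

/-- `∑ a(g) π(g)` -/
noncomputable def opv (π : G → (H →L[ℂ] H)) : (G →₀ ℂ) →ₗ[ℂ] (H →L[ℂ] H) :=
  Finsupp.linearCombination ℂ π

theorem opv_apply (π : G → (H →L[ℂ] H)) (a : G →₀ ℂ) : opv π a = a.sum fun g c => c • π g := rfl

theorem inner_opv (π : G → (H →L[ℂ] H)) (a : G →₀ ℂ) (x y : H) :
    inner ℂ x (opv π a y) = a.sum fun g c => c * inner ℂ x (π g y) := by
  rw [opv_apply]
  unfold Finsupp.sum
  rw [sum_apply, inner_sum]
  refine Finset.sum_congr rfl fun g _ => ?_
  rw [smul_apply, inner_smul_right]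

/-- a function is dominated by the maximal C*-norm -/
def Dom (f : G → ℂ) : Prop :=
  ∃ K : ℝ, 0 ≤ K ∧ ∀ a : G →₀ ℂ, ‖a.sum fun g c => c * f g‖ ≤ K * maxNorm a

theorem dom_pd {φ : G → ℂ} (h : PD φ) : Dom φ := by
  obtain ⟨E, i1, i2, π, ξ, hξ⟩ := gns_vector φ h
  refine ⟨‖ξ‖ * ‖ξ‖, by positivity, fun a => ?_⟩
  have h1 := coef_le π a ξ ξ
  simp only [hξ] at h1
  exact h1

theorem dom_span {f : G → ℂ} (h : f ∈ Submodule.span ℂ {φ : G → ℂ | PD φ}) : Dom f := by
  induction h using Submodule.span_induction with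
  | mem φ hφ => exact dom_pd hφ
  | zero =>
    refine ⟨0, le_rfl, fun a => ?_⟩
    have : (a.sum fun g c => c * (0 : G → ℂ) g) = 0 := by
      unfold Finsupp.sum
      simp
    rw [this, norm_zero, zero_mul]
  | add f g _ _ hf hg =>
    obtain ⟨K, hK, h1⟩ := hf
    obtain ⟨L, hL, h2⟩ := hg
    refine ⟨K + L, by positivity, fun a => ?_⟩
    have : (a.sum fun x c => c * (f + g) x) = (a.sum fun x c => c * f x) + a.sum fun x c => c * g x := by
      unfold Finsupp.sum
      rw [← Finset.sum_add_distrib]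
      exact Finset.sum_congr rfl fun x _ => by simp only [Pi.add_apply]; ring
    rw [this, add_mul]
    exact (norm_add_le _ _).trans (add_le_add (h1 a) (h2 a))
  | smul r f _ hf =>
    obtain ⟨K, hK, h1⟩ := hf
    refine ⟨‖r‖ * K, by positivity, fun a => ?_⟩
    have : (a.sum fun x c => c * (r • f) x) = r * a.sum fun x c => c * f x := by
      unfold Finsupp.sum
      rw [Finset.mul_sum]
      exact Finset.sum_congr rfl fun x _ => by simp only [Pi.smul_apply, smul_eq_mul]; ring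
    rw [this, norm_mul, mul_assoc]
    exact mul_le_mul_of_nonneg_left (h1 a) (norm_nonneg _)

/-- a bound for the quadratic form bounds the operator -/
theorem norm_le_of_quad (T : H →L[ℂ] H) (w : ℝ) (hw : 0 ≤ w)
    (h : ∀ y : H, ‖inner ℂ y (T y)‖ ≤ w * ‖y‖ ^ 2) : ‖T‖ ≤ 2 * w := by
  -- the sesquilinear form
  have hs : ∀ x y : H, ‖inner ℂ y (T x)‖ ≤ w * (‖x‖ ^ 2 + ‖y‖ ^ 2) := by
    intro x y
    have hpol : 4 * inner ℂ y (T x) = inner ℂ (y + x) (T (y + x)) - inner ℂ (y - x) (T (y - x)) -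
        Complex.I * inner ℂ (y + Complex.I • x) (T (y + Complex.I • x)) +
        Complex.I * inner ℂ (y - Complex.I • x) (T (y - Complex.I • x)) := by
      simp only [map_add, map_sub, map_smul, inner_add_left, inner_add_right, inner_sub_left,
        inner_sub_right, inner_smul_left, inner_smul_right, Complex.conj_I]
      linear_combination (2 * inner ℂ y (T x) - 2 * inner ℂ x (T y)) * Complex.I_sq
    have hp1 : ‖y + x‖ ^ 2 + ‖y - x‖ ^ 2 = 2 * (‖y‖ ^ 2 + ‖x‖ ^ 2) := by
      have := parallelogram_law_with_norm ℂ y x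
      nlinarith
    have hp2 : ‖y + Complex.I • x‖ ^ 2 + ‖y - Complex.I • x‖ ^ 2 = 2 * (‖y‖ ^ 2 + ‖x‖ ^ 2) := by
      have := parallelogram_law_with_norm ℂ y (Complex.I • x)
      rw [norm_smul, Complex.norm_I, one_mul] at this
      nlinarith
    have h4 : 4 * ‖inner ℂ y (T x)‖ ≤ w * (4 * (‖x‖ ^ 2 + ‖y‖ ^ 2)) := by
      calc 4 * ‖inner ℂ y (T x)‖ = ‖4 * inner ℂ y (T x)‖ := by rw [norm_mul]; norm_num
        _ ≤ ‖inner ℂ (y + x) (T (y + x))‖ + ‖inner ℂ (y - x) (T (y - x))‖ +
            ‖inner ℂ (y + Complex.I • x) (T (y + Complex.I • x))‖ +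
            ‖inner ℂ (y - Complex.I • x) (T (y - Complex.I • x))‖ := by
            rw [hpol]
            refine (norm_add_le _ _).trans ?_
            rw [norm_mul, Complex.norm_I, one_mul]
            refine add_le_add ?_ le_rfl
            refine (norm_sub_le _ _).trans ?_
            rw [norm_mul, Complex.norm_I, one_mul]
            exact add_le_add (norm_sub_le _ _) le_rfl
        _ ≤ w * ‖y + x‖ ^ 2 + w * ‖y - x‖ ^ 2 + w * ‖y + Complex.I • x‖ ^ 2 +
            w * ‖y - Complex.I • x‖ ^ 2 :=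
            add_le_add (add_le_add (add_le_add (h _) (h _)) (h _)) (h _)
        _ = w * (4 * (‖x‖ ^ 2 + ‖y‖ ^ 2)) := by linear_combination w * hp1 + w * hp2
    linarith
  refine ContinuousLinearMap.opNorm_le_bound _ (by positivity) fun x => ?_
  by_cases hx : ‖x‖ = 0
  · have : x = 0 := norm_eq_zero.1 hx
    rw [this, map_zero, norm_zero, mul_zero]
  by_cases hT : ‖T x‖ = 0
  · rw [hT]
    positivity
  have hx' : 0 < ‖x‖ := lt_of_le_of_ne (norm_nonneg _) (Ne.symm hx)
  have hT' : 0 < ‖T x‖ := lt_of_le_of_ne (norm_nonneg _) (Ne.symm hT)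
  have h1 := hs ((‖T x‖ : ℂ) • x) ((‖x‖ : ℂ) • T x)
  rw [map_smul, inner_smul_left, inner_smul_right, norm_mul, norm_mul, norm_smul, norm_smul,
    RCLike.norm_conj, Complex.norm_real, Complex.norm_real, norm_norm, norm_norm,
    inner_self_eq_norm_sq_to_K, norm_pow] at h1
  have h2 : ‖((‖T x‖ : ℝ) : ℂ)‖ = ‖T x‖ := by rw [Complex.norm_real, norm_norm]
  have h3 : ‖x‖ * (‖T x‖ * ‖T x‖ ^ 2) ≤ w * ((‖T x‖ * ‖x‖) ^ 2 + (‖x‖ * ‖T x‖) ^ 2) := by
    rw [← h2] 
    simpa using h1
  have h4 : (‖x‖ * ‖T x‖ ^ 2) * ‖T x‖ ≤ (‖x‖ * ‖T x‖ ^ 2) * (2 * w * ‖x‖) := by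
    nlinarith
  exact le_of_mul_le_mul_left h4 (by positivity)

/-- the quadratic form of `∑ a(g) π(g)` is bounded by `n` times the maximal norm -/
def En (π : G → (H →L[ℂ] H)) (n : ℕ) : Set H :=
  {x | ∀ a : G →₀ ℂ, ‖inner ℂ x (opv π a x)‖ ≤ n * maxNorm a}

theorem isClosed_En (π : G → (H →L[ℂ] H)) (n : ℕ) : IsClosed (En π n) := by
  have : En π n = ⋂ a : G →₀ ℂ, {x : H | ‖inner ℂ x (opv π a x)‖ ≤ n * maxNorm a} := by
    ext x
    simp [En]
  rw [this]
  refine isClosed_iInter fun a => ?_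
  exact isClosed_le (by fun_prop) continuous_const

/-- if the quadratic coefficients are dominated for a non-meagre set of vectors, then
`∑ a(g) π(g)` is bounded by the maximal norm -/
theorem bound_of_nonmeagre (π : G → (H →L[ℂ] H))
    (h : ¬ IsMeagre {x : H | Dom (fun g => inner ℂ x (π g x))}) :
    ∃ C : ℝ, 1 ≤ C ∧ ∀ a : G →₀ ℂ, ‖opv π a‖ ≤ C * maxNorm a := by
  have hsub : {x : H | Dom (fun g => inner ℂ x (π g x))} ⊆ ⋃ n : ℕ, En π n := by
    rintro x ⟨K, hK, hx⟩
    rw [Set.mem_iUnion]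
    obtain ⟨n, hn⟩ := exists_nat_ge K
    refine ⟨n, fun a => ?_⟩
    rw [inner_opv]
    exact (hx a).trans (mul_le_mul_of_nonneg_right hn (maxNorm_nonneg a))
  have hex : ∃ n : ℕ, (interior (En π n)).Nonempty := by
    by_contra hcon
    push Not at hcon
    apply h
    refine IsMeagre.mono hsub (isMeagre_iUnion fun n => ?_)
    refine IsNowhereDense.isMeagre ?_
    rw [IsNowhereDense, (isClosed_En π n).closure_eq]
    exact hcon n
  obtain ⟨n, x₀, hx₀⟩ := hex
  rw [mem_interior_iff_mem_nhds, Metric.mem_nhds_iff] at hx₀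
  obtain ⟨r, hr, hball⟩ := hx₀
  -- the quadratic form near zero
  have hq : ∀ y : H, ‖y‖ < r → ∀ a : G →₀ ℂ, ‖inner ℂ y (opv π a y)‖ ≤ 2 * n * maxNorm a := by
    intro y hy a
    have h0 := hball (Metric.mem_ball_self hr) a
    have h1 := hball (show x₀ + y ∈ Metric.ball x₀ r by
      rw [Metric.mem_ball, dist_eq_norm, add_sub_cancel_left]; exact hy) a
    have h2 := hball (show x₀ - y ∈ Metric.ball x₀ r by
      rw [Metric.mem_ball, dist_eq_norm, sub_sub_cancel_left, norm_neg]; exact hy) a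
    have hid : 2 * inner ℂ y (opv π a y) = inner ℂ (x₀ + y) (opv π a (x₀ + y)) +
        inner ℂ (x₀ - y) (opv π a (x₀ - y)) - 2 * inner ℂ x₀ (opv π a x₀) := by
      simp only [map_add, map_sub, inner_add_left, inner_add_right, inner_sub_left,
        inner_sub_right]
      ring
    have h3 : 2 * ‖inner ℂ y (opv π a y)‖ ≤ 4 * (n * maxNorm a) := by
      calc 2 * ‖inner ℂ y (opv π a y)‖ = ‖2 * inner ℂ y (opv π a y)‖ := by rw [norm_mul]; norm_num
        _ ≤ ‖inner ℂ (x₀ + y) (opv π a (x₀ + y))‖ + ‖inner ℂ (x₀ - y) (opv π a (x₀ - y))‖ +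
            2 * ‖inner ℂ x₀ (opv π a x₀)‖ := by
            rw [hid]
            refine (norm_sub_le _ _).trans ?_
            rw [norm_mul]
            refine add_le_add (norm_add_le _ _) (le_of_eq ?_)
            norm_num
        _ ≤ _ := by linarith
    linarith
  set K : ℝ := 2 * n * (2 / r) ^ 2 with hK
  have hK0 : 0 ≤ K := by positivity
  refine ⟨2 * K + 1, by linarith, fun a => ?_⟩
  have hm := maxNorm_nonneg a
  have hquad : ∀ y : H, ‖inner ℂ y (opv π a y)‖ ≤ (K * maxNorm a) * ‖y‖ ^ 2 := by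
    intro y
    by_cases hy : ‖y‖ = 0
    · have : y = 0 := norm_eq_zero.1 hy
      rw [this, inner_zero_left, norm_zero, norm_zero]
      simp
    have hy' : 0 < ‖y‖ := lt_of_le_of_ne (norm_nonneg _) (Ne.symm hy)
    set s : ℝ := r / (2 * ‖y‖) with hs
    have hs0 : 0 < s := by positivity
    have h1 := hq ((s : ℂ) • y) (by
      rw [norm_smul, Complex.norm_real, Real.norm_of_nonneg hs0.le, hs]
      have : r / (2 * ‖y‖) * ‖y‖ = r / 2 := by field_simp
      rw [this]
      linarith) a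
    rw [map_smul, inner_smul_left, inner_smul_right, norm_mul, norm_mul, RCLike.norm_conj,
      Complex.norm_real, Real.norm_of_nonneg hs0.le] at h1
    have h2 : s * (s * ‖inner ℂ y (opv π a y)‖) = s ^ 2 * ‖inner ℂ y (opv π a y)‖ := by ring
    rw [h2] at h1
    have h3 : ‖inner ℂ y (opv π a y)‖ ≤ 2 * n * maxNorm a / s ^ 2 := by
      rw [le_div_iff₀ (by positivity)]
      linarith
    refine h3.trans (le_of_eq ?_)
    rw [hK, hs]
    field_simp
  have := norm_le_of_quad (opv π a) (K * maxNorm a) (by positivity) hquad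
  nlinarith

end Pool.Agent.TH698.Dix
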