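import Pool.Agent.TH698.Dix1

/-!
# Coefficients of non-unitary representations: the similarity
-/

set_option autoImplicit false

noncomputable section

namespace Pool.Agent.TH698.Dix

open Pool.Agent.H71R3.FS
open scoped ENNReal

section DS
/-! Diagonal operators on direct sums (copied from `Pool.Agent.H278R2.Kad7.DSum`). -/




variable {I : Type} {K : I → Type} [∀ i, NormedAddCommGroup (K i)]
  [∀ i, InnerProductSpace ℂ (K i)]

theorem sum_le (T : ∀ i, K i →L[ℂ] K i) {r : ℝ} (hr0 : 0 ≤ r) (hr : ∀ i, ‖T i‖ ≤ r) (f : lp K 2)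
    (s : Finset I) :
    ∑ i ∈ s, ‖T i (f i)‖ ^ (2 : ℝ≥0∞).toReal ≤ (r * ‖f‖) ^ (2 : ℝ≥0∞).toReal := by
  have h2 : 0 < (2 : ℝ≥0∞).toReal := by norm_num
  have h1 := lp.sum_rpow_le_norm_rpow h2 f s
  calc ∑ i ∈ s, ‖T i (f i)‖ ^ (2 : ℝ≥0∞).toReal
      ≤ ∑ i ∈ s, r ^ (2 : ℝ≥0∞).toReal * ‖f i‖ ^ (2 : ℝ≥0∞).toReal := by
        apply Finset.sum_le_sum
        intro i _
        rw [← Real.mul_rpow hr0 (norm_nonneg _)]
        apply Real.rpow_le_rpow (norm_nonneg _) _ h2.le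
        exact ((T i).le_opNorm _).trans (mul_le_mul_of_nonneg_right (hr i) (norm_nonneg _))
    _ = r ^ (2 : ℝ≥0∞).toReal * ∑ i ∈ s, ‖f i‖ ^ (2 : ℝ≥0∞).toReal := by rw [Finset.mul_sum]
    _ ≤ r ^ (2 : ℝ≥0∞).toReal * ‖f‖ ^ (2 : ℝ≥0∞).toReal :=
        mul_le_mul_of_nonneg_left h1 (Real.rpow_nonneg hr0 _)
    _ = (r * ‖f‖) ^ (2 : ℝ≥0∞).toReal := by rw [Real.mul_rpow hr0 (norm_nonneg _)]

/-- diagonal operator, as a linear map -/
def dgL (T : ∀ i, K i →L[ℂ] K i) {r : ℝ} (hr0 : 0 ≤ r) (hr : ∀ i, ‖T i‖ ≤ r) :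
    lp K 2 →ₗ[ℂ] lp K 2 where
  toFun f := ⟨fun i => T i (f i), memℓp_gen' (sum_le T hr0 hr f)⟩
  map_add' f g := by
    apply lp.ext
    funext i
    show T i ((f + g) i) = T i (f i) + T i (g i)
    rw [← map_add]; rfl
  map_smul' c f := by
    apply lp.ext
    funext i
    show T i ((c • f) i) = c • T i (f i)
    rw [← map_smul]; rfl

theorem dgL_apply (T : ∀ i, K i →L[ℂ] K i) {r : ℝ} (hr0 : 0 ≤ r) (hr : ∀ i, ‖T i‖ ≤ r)
    (f : lp K 2) (i : I) : dgL T hr0 hr f i = T i (f i) := rfl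

/-- diagonal operator -/
def dgC (T : ∀ i, K i →L[ℂ] K i) {r : ℝ} (hr0 : 0 ≤ r) (hr : ∀ i, ‖T i‖ ≤ r) :
    lp K 2 →L[ℂ] lp K 2 :=
  (dgL T hr0 hr).mkContinuous r fun f => by
    have h2 : 0 < (2 : ℝ≥0∞).toReal := by norm_num
    apply lp.norm_le_of_forall_sum_le h2 (mul_nonneg hr0 (norm_nonneg _))
    exact sum_le T hr0 hr f

theorem dgC_apply (T : ∀ i, K i →L[ℂ] K i) {r : ℝ} (hr0 : 0 ≤ r) (hr : ∀ i, ‖T i‖ ≤ r)
    (f : lp K 2) (i : I) : dgC T hr0 hr f i = T i (f i) := rfl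


end DS

variable {G : Type} [Group G]

/-- a unitary representation, bundled -/
structure Rep (G : Type) [Group G] where
  E : Type
  i1 : NormedAddCommGroup E
  i2 : InnerProductSpace ℂ E
  i3 : CompleteSpace E
  σ : G →* (E ≃ₗᵢ[ℂ] E)

attribute [instance] Rep.i1 Rep.i2 Rep.i3

theorem exists_rep (a : G →₀ ℂ) (n : ℕ) :
    ∃ R : Rep G, maxNorm a - 1 / ((n : ℝ) + 1) < ‖ev R.σ a‖ := by
  have h1 : maxNorm a - 1 / ((n : ℝ) + 1) < maxNorm a := by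
    have : (0 : ℝ) < 1 / ((n : ℝ) + 1) := by positivity
    linarith
  obtain ⟨t, ⟨H, i1, i2, i3, π, rfl⟩, ht⟩ := exists_lt_of_lt_csSup (repNorms_nonempty a) h1
  exact ⟨⟨H, i1, i2, i3, π⟩, ht⟩

/-- the chosen representations -/
def RR (i : (G →₀ ℂ) × ℕ) : Rep G := (exists_rep i.1 i.2).choose

theorem RR_spec (i : (G →₀ ℂ) × ℕ) :
    maxNorm i.1 - 1 / ((i.2 : ℝ) + 1) < ‖ev (RR i).σ i.1‖ := (exists_rep i.1 i.2).choose_spec

variable (G) in
/-- the Hilbert space of the universal representation -/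
abbrev KK : Type := lp (fun i : (G →₀ ℂ) × ℕ => (RR i).E) 2

theorem norm_iso_le {E : Type} [NormedAddCommGroup E] [InnerProductSpace ℂ E] (e : E ≃ₗᵢ[ℂ] E) :
    ‖((e.toContinuousLinearEquiv : E ≃L[ℂ] E) : E →L[ℂ] E)‖ ≤ 1 := by
  refine ContinuousLinearMap.opNorm_le_bound _ zero_le_one fun x => ?_
  rw [one_mul]
  exact (e.norm_map x).le

/-- the universal representation -/
def UU (g : G) : KK G →L[ℂ] KK G :=
  dgC (fun i => (((RR i).σ g).toContinuousLinearEquiv : (RR i).E →L[ℂ] (RR i).E)) zero_le_one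
    (fun i => norm_iso_le ((RR i).σ g))

theorem UU_apply (g : G) (f : KK G) (i : (G →₀ ℂ) × ℕ) : UU g f i = (RR i).σ g (f i) := rfl

theorem UU_one : UU (1 : G) = 1 := by
  ext f i
  rw [UU_apply, map_one]
  rfl

theorem UU_mul (g h : G) : UU (g * h) = UU g * UU h := by
  ext f i
  rw [UU_apply, map_mul]
  rfl

theorem UU_star (g : G) : star (UU g) = UU g⁻¹ := by
  rw [ContinuousLinearMap.star_eq_adjoint]
  symm
  rw [ContinuousLinearMap.eq_adjoint_iff]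
  intro f h
  rw [lp.inner_eq_tsum, lp.inner_eq_tsum]
  apply tsum_congr
  intro i
  rw [UU_apply, UU_apply]
  have h1 : h i = (RR i).σ g⁻¹ ((RR i).σ g (h i)) := by
    show h i = ((RR i).σ g⁻¹ * (RR i).σ g) (h i)
    rw [← map_mul, inv_mul_cancel, map_one]
    rfl
  conv_lhs => rw [h1]
  exact ((RR i).σ g⁻¹).inner_map_map _ _

theorem opv_UU_apply (a : G →₀ ℂ) (f : KK G) (i : (G →₀ ℂ) × ℕ) :
    opv UU a f i = ev (RR i).σ a (f i) := by
  rw [opv_apply, ev_apply]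
  unfold Finsupp.sum
  rw [sum_apply, lp.coeFn_sum, Finset.sum_apply]
  rfl

theorem maxNorm_le_opv (a : G →₀ ℂ) : maxNorm a ≤ ‖opv (UU (G := G)) a‖ := by
  classical
  refine le_of_forall_pos_le_add fun ε hε => ?_
  obtain ⟨n, hn⟩ := exists_nat_one_div_lt hε
  have h1 := RR_spec (a, n)
  have h2 : ‖ev (RR (a, n)).σ a‖ ≤ ‖opv (UU (G := G)) a‖ := by
    refine ContinuousLinearMap.opNorm_le_bound _ (norm_nonneg _) fun v => ?_
    have h3 : ev (RR (a, n)).σ a v = opv UU a (lp.single 2 (a, n) v) (a, n) := by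
      rw [opv_UU_apply, lp.single_apply_self]
    rw [h3]
    calc ‖opv UU a (lp.single 2 (a, n) v) (a, n)‖ ≤ ‖opv UU a (lp.single 2 (a, n) v)‖ :=
          lp.norm_apply_le_norm (by norm_num) _ _
      _ ≤ ‖opv (UU (G := G)) a‖ * ‖(lp.single 2 (a, n) v : KK G)‖ := ContinuousLinearMap.le_opNorm _ _
      _ = ‖opv (UU (G := G)) a‖ * ‖v‖ := by
          rw [lp.norm_single (by norm_num)]
  have h4 : maxNorm a - 1 / ((n : ℝ) + 1) < ‖ev (RR (a, n)).σ a‖ := h1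
  linarith

end Pool.Agent.TH698.Dix
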